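import Pool.Agent.H66.F2.Red
import Pool.Agent.H66.Eng2.CharTwo

set_option autoImplicit false

/-!
# All fields of characteristic two (MP_1664c7_al)
-/

universe u v

namespace Pool.Agent.H66.F2

open Pool.Agent.H66.Eng Pool.Agent.H86.Eng2 Pool.Agent.H66.Eng2

/-- **Characteristic two.** -/
theorem char_two {F : Type u} [Field F] {A : Type v} [NonUnitalNonAssocRing A] [Module F A]
    [IsScalarTower F A A] [SMulCommClass F A A]
    (h2 : (2 : F) = 0)
    (sq : ∀ x : A, x * x = 0) (eng : ∀ x y : A, ((x * y) * y) * y = 0) (s : Finset A) :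
    IsNilpotentAlg (NonUnitalAlgebra.adjoin F (s : Set A)) := by
  by_cases ht : ∃ t : F, t ≠ 0 ∧ t ≠ 1
  · obtain ⟨t, ht0, ht1⟩ := ht
    exact e2_nilpotent (e2_of_field h2 t ht0 ht1 sq eng) s
  · have h01 : ∀ r : F, r = 0 ∨ r = 1 := by
      intro r
      by_contra h
      push Not at h
      exact ht ⟨r, h.1, h.2⟩
    have hA : W3 A :=
      { two := fun x => by rw [← two_smul F x, h2, zero_smul]
        sq := sq
        eng := eng }
    exact w3_nilpotent (F := F) h01 (fun G _ _ _ _ hG X hX =>
      e2_mon (F := F) (A := G) hG hX) hA s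

end Pool.Agent.H66.F2
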