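import Pool.Agent.H66.F2.Core

/-! Certificate data (generated). -/

set_option autoImplicit false

namespace Pool.Agent.H66.F2

def cC2 : List It := [⟨0, 4, 11863, 2, 2, 2, 2, []⟩,
  ⟨0, 4, 2, 2, 2, 2, 2, [6, 2]⟩,
  ⟨0, 2, 13127, 2, 2, 2, 2, []⟩,
  ⟨0, 2, 4, 2, 2, 2, 2, [81]⟩,
  ⟨0, 2, 6, 2, 2, 2, 2, [4, 4]⟩,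
  ⟨0, 2, 11867, 2, 2, 2, 2, []⟩,
  ⟨0, 4, 2, 2, 2, 2, 2, [2, 6]⟩,
  ⟨1, 2, 4, 4, 2, 2, 2, [6, 2]⟩,
  ⟨2, 2, 4, 77, 2, 2, 2, [4]⟩,
  ⟨2, 2, 37, 81, 2, 2, 2, []⟩,
  ⟨1, 2, 4, 4, 2, 2, 2, [77]⟩,
  ⟨2, 4, 37, 77, 4, 2, 2, []⟩,
  ⟨3, 2, 4, 6, 2, 2, 2, []⟩,
  ⟨2, 4, 6, 37, 37, 2, 2, []⟩,
  ⟨2, 4, 37, 77, 2, 2, 2, []⟩,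
  ⟨2, 2, 4, 37, 4, 2, 2, [6]⟩,
  ⟨2, 2, 4, 13127, 2, 2, 2, []⟩,
  ⟨2, 4, 6, 37, 2, 2, 2, [4]⟩,
  ⟨2, 2, 4, 6, 4, 2, 2, [37]⟩,
  ⟨2, 2, 4, 77, 4, 2, 2, [2]⟩,
  ⟨1, 2, 4, 2, 2, 2, 2, [4, 6]⟩,
  ⟨1, 2, 4, 2, 2, 2, 2, [6, 4]⟩,
  ⟨2, 2, 4, 6, 2, 2, 2, [2, 2]⟩,
  ⟨2, 2, 4, 6, 2, 2, 2, [4, 4]⟩,
  ⟨2, 2, 4, 6, 2, 2, 2, [4, 2]⟩,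
  ⟨2, 2, 6, 37, 2, 2, 2, [4]⟩,
  ⟨2, 2, 6, 2743, 4, 2, 2, []⟩,
  ⟨2, 2, 4, 37, 6, 2, 2, [2]⟩,
  ⟨2, 2, 4, 2751, 2, 2, 2, []⟩,
  ⟨1, 2, 4, 6, 2, 2, 2, [37]⟩,
  ⟨2, 2, 37, 77, 4, 2, 2, []⟩,
  ⟨2, 2, 6, 37, 4, 2, 2, [2]⟩,
  ⟨1, 2, 4, 11863, 2, 2, 2, []⟩,
  ⟨2, 2, 4, 6, 37, 2, 2, [4]⟩,
  ⟨2, 2, 4, 37, 2, 2, 2, [6]⟩,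
  ⟨2, 2, 4, 77, 4, 2, 2, [4]⟩,
  ⟨2, 4, 6, 2743, 4, 2, 2, []⟩,
  ⟨4, 2, 2, 6, 4, 2, 2, []⟩,
  ⟨0, 2, 4, 2, 2, 2, 2, [81, 2]⟩,
  ⟨0, 6, 37, 2, 2, 2, 2, [2, 2]⟩,
  ⟨0, 2, 344846327, 2, 2, 2, 2, []⟩,
  ⟨3, 2, 4, 81, 2, 2, 2, []⟩,
  ⟨0, 2, 2743, 2, 2, 2, 2, [6]⟩,
  ⟨2, 2, 37, 81, 2, 2, 2, [2]⟩,
  ⟨2, 2, 4, 81, 2, 2, 2, [2, 2]⟩,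
  ⟨1, 2, 4, 81, 2, 2, 2, [2, 2]⟩,
  ⟨2, 2, 4, 81, 4, 2, 2, [2, 2]⟩,
  ⟨0, 2, 4, 2, 2, 2, 2, [4, 37, 6]⟩,
  ⟨0, 2, 4, 2, 2, 2, 2, [6, 37, 2]⟩,
  ⟨0, 2, 4, 2, 2, 2, 2, [37, 2, 6]⟩,
  ⟨0, 2, 6, 2, 2, 2, 2, [4, 2, 2, 4]⟩,
  ⟨0, 2, 4, 2, 2, 2, 2, [81, 2, 2]⟩,
  ⟨0, 4, 77, 2, 2, 2, 2, [2, 4, 2]⟩,
  ⟨0, 2, 237548313063390587, 2, 2, 2, 2, []⟩,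
  ⟨0, 2, 4, 2, 2, 2, 2, [15136007]⟩,
  ⟨0, 2, 455538799409935, 2, 2, 2, 2, []⟩,
  ⟨0, 2, 345056525, 2, 2, 2, 2, []⟩,
  ⟨0, 4, 2, 2, 2, 2, 2, [2, 13127]⟩,
  ⟨0, 2, 6, 2, 2, 2, 2, [4, 2, 4, 2]⟩,
  ⟨0, 37, 2, 2, 2, 2, 2, [6]⟩,
  ⟨0, 4, 2, 2, 2, 2, 2, [77, 4, 2]⟩,
  ⟨0, 4, 2, 2, 2, 2, 2, [6, 2, 4, 2]⟩,
  ⟨0, 2, 158655007598047547, 2, 2, 2, 2, []⟩,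
  ⟨0, 4, 15048111, 2, 2, 2, 2, [2]⟩,
  ⟨0, 2, 2743, 2, 2, 2, 2, [4, 6]⟩,
  ⟨0, 2, 348321631, 2, 2, 2, 2, []⟩,
  ⟨0, 2, 81, 2, 2, 2, 2, [4, 2, 4]⟩,
  ⟨0, 2, 237548307549210347, 2, 2, 2, 2, []⟩,
  ⟨0, 37, 6, 2, 2, 2, 2, [2]⟩,
  ⟨0, 2, 37, 2, 2, 2, 2, [81, 4]⟩,
  ⟨0, 2, 13127, 2, 2, 2, 2, [4, 4]⟩,
  ⟨0, 2, 4, 2, 2, 2, 2, [344846327]⟩,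
  ⟨1, 2, 4, 4, 2, 2, 2, [2, 4, 6, 2]⟩,
  ⟨0, 4, 15136007, 2, 2, 2, 2, [2]⟩,
  ⟨1, 2, 37, 2, 2, 2, 2, [2, 6]⟩,
  ⟨2, 2, 4, 2743, 2, 2, 2, [4, 6]⟩,
  ⟨4, 2, 2, 2, 4, 2, 2, [4, 6]⟩,
  ⟨0, 2, 458197657984251, 2, 2, 2, 2, []⟩,
  ⟨0, 4, 2, 2, 2, 2, 2, [11867, 2]⟩,
  ⟨0, 2, 15092031, 2, 2, 2, 2, [4]⟩,
  ⟨2, 2, 4, 2743, 2, 2, 2, [2, 6]⟩,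
  ⟨0, 2, 37, 2, 2, 2, 2, [6, 4, 2]⟩,
  ⟨0, 2, 15136011, 2, 2, 2, 2, [4]⟩,
  ⟨2, 2, 4, 37, 2, 2, 2, [81, 2]⟩,
  ⟨0, 2, 4, 2, 2, 2, 2, [4, 2, 2, 6]⟩,
  ⟨0, 4, 2, 2, 2, 2, 2, [77, 2, 2]⟩,
  ⟨2, 2, 4, 37, 4, 2, 2, [6, 2, 2]⟩,
  ⟨0, 2, 4, 2, 2, 2, 2, [4, 6, 2, 4]⟩,
  ⟨1, 2, 4, 2, 2, 2, 2, [2, 4, 2, 6]⟩,
  ⟨0, 2, 2743, 2, 2, 2, 2, [6, 4]⟩,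
  ⟨1, 2, 4, 4, 2, 2, 2, [2, 13127]⟩,
  ⟨3, 2, 4, 6, 2, 2, 2, [2, 4]⟩,
  ⟨1, 2, 4, 2, 2, 2, 2, [6, 37, 2]⟩,
  ⟨0, 4, 11867, 2, 2, 2, 2, [2, 2]⟩,
  ⟨0, 2, 4, 2, 2, 2, 2, [6, 4, 4, 2]⟩,
  ⟨0, 2, 2747, 2, 2, 2, 2, [6, 4]⟩,
  ⟨1, 2, 4, 2, 2, 2, 2, [2, 2, 6, 4]⟩,
  ⟨2, 2, 4, 344636333, 2, 2, 2, []⟩,
  ⟨0, 2, 344636267, 2, 2, 2, 2, [4]⟩,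
  ⟨2, 2, 4, 344636263, 2, 2, 2, [4]⟩,
  ⟨2, 2, 37, 81, 37, 2, 2, [2]⟩,
  ⟨0, 4, 2, 2, 2, 2, 2, [2, 4, 6, 2]⟩,
  ⟨1, 2, 4, 4, 2, 2, 2, [6, 4, 2, 2]⟩,
  ⟨0, 2, 13131, 2, 2, 2, 2, [37]⟩,
  ⟨2, 2, 4, 6, 2, 2, 2, [37, 2, 4]⟩,
  ⟨2, 2, 4, 37, 2, 2, 2, [2, 4, 6]⟩,
  ⟨2, 2, 4, 77, 4, 2, 2, [2, 4, 2]⟩,
  ⟨2, 2, 4, 81, 2, 2, 2, [2, 4, 2]⟩,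
  ⟨0, 2, 4, 2, 2, 2, 2, [4, 2, 4, 6]⟩,
  ⟨0, 2, 4, 2, 2, 2, 2, [2751, 4]⟩,
  ⟨3, 4, 2, 6, 2, 2, 2, [4, 2]⟩,
  ⟨0, 4, 2, 2, 2, 2, 2, [6, 4, 2, 2]⟩,
  ⟨2, 2, 4, 6, 2, 2, 2, [4, 2, 2, 4]⟩,
  ⟨0, 2, 13127, 2, 2, 2, 2, [4, 2]⟩,
  ⟨2, 2, 4, 13127, 4, 2, 2, [2, 2]⟩,
  ⟨2, 2, 4, 77, 2, 2, 2, [4, 4, 2]⟩,
  ⟨2, 2, 4, 81, 2, 2, 2, [4, 2, 2]⟩,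
  ⟨2, 2, 4, 6, 2, 2, 2, [2, 4, 4, 2]⟩,
  ⟨0, 4, 281461543, 2, 2, 2, 2, [2]⟩,
  ⟨2, 2, 4, 81, 2, 2, 2, [37, 2]⟩,
  ⟨2, 2, 4, 281461547, 2, 2, 2, [4]⟩,
  ⟨2, 2, 6, 2747, 6, 2, 2, [2, 2]⟩,
  ⟨2, 4, 6, 2743, 4, 2, 2, [2, 2]⟩,
  ⟨0, 4, 2, 2, 2, 2, 2, [2, 6, 2, 2]⟩,
  ⟨1, 2, 4, 4, 2, 2, 2, [4, 6, 2, 2]⟩,
  ⟨1, 2, 4, 4, 2, 2, 2, [11867, 2]⟩,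
  ⟨1, 2, 4, 2, 2, 2, 2, [81, 2, 2]⟩,
  ⟨1, 2, 4, 2, 2, 2, 2, [15136007]⟩,
  ⟨2, 2, 4, 6, 2, 2, 2, [2743, 4]⟩,
  ⟨2, 4, 6, 37, 37, 2, 2, [2, 2]⟩,
  ⟨1, 2, 4, 2, 2, 2, 2, [2, 6, 4, 2]⟩,
  ⟨2, 2, 37, 344846327, 2, 2, 2, []⟩,
  ⟨0, 2, 4, 2, 2, 2, 2, [13127, 4]⟩,
  ⟨0, 2, 13131, 2, 2, 2, 2, [4, 2]⟩,
  ⟨0, 4, 2, 2, 2, 2, 2, [2, 37, 6]⟩,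
  ⟨0, 4, 37, 2, 2, 2, 2, [6, 2, 2]⟩,
  ⟨2, 2, 4, 348321623, 2, 2, 2, []⟩,
  ⟨2, 2, 4, 37, 2, 2, 2, [37, 6]⟩,
  ⟨3, 2, 4, 6, 2, 2, 2, [4, 2]⟩,
  ⟨1, 2, 4, 4, 2, 2, 2, [6, 2, 4, 2]⟩,
  ⟨2, 2, 4, 6, 4, 2, 2, [2, 4, 2, 2]⟩,
  ⟨2, 2, 4, 237548307549210347, 2, 2, 2, []⟩,
  ⟨2, 2, 81, 2747, 2, 2, 2, [2]⟩,
  ⟨2, 2, 4, 6, 2, 2, 2, [4, 2, 4, 2]⟩,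
  ⟨2, 2, 4, 37, 2, 2, 2, [13127]⟩,
  ⟨2, 2, 4, 15136007, 4, 2, 2, [2]⟩,
  ⟨2, 2, 4, 2751, 4, 2, 2, [2, 2]⟩,
  ⟨2, 4, 37, 77, 2, 2, 2, [4, 2]⟩,
  ⟨2, 2, 4, 81, 2, 2, 2, [4, 4, 2]⟩,
  ⟨2, 2, 4, 458197415808103, 4, 2, 2, []⟩,
  ⟨2, 4, 37, 2751, 2, 2, 2, [2]⟩,
  ⟨3, 4, 2, 81, 2, 2, 2, [2]⟩,
  ⟨2, 2, 4, 81, 2, 2, 2, [2, 2, 4]⟩,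
  ⟨2, 4, 6, 37, 2, 2, 2, [2, 4, 2]⟩,
  ⟨2, 2, 4, 452891289336651, 2, 2, 2, []⟩,
  ⟨2, 2, 4, 6, 2, 2, 2, [37, 4, 2]⟩,
  ⟨2, 2, 4, 81, 2, 2, 2, [2743]⟩,
  ⟨2, 2, 81, 2743, 2, 2, 2, [4]⟩,
  ⟨2, 2, 6, 37, 37, 2, 2, [2, 4]⟩,
  ⟨2, 2, 6, 2747, 2, 2, 2, [4, 2]⟩,
  ⟨1, 2, 4, 4, 2, 2, 2, [2, 37, 6]⟩,
  ⟨1, 2, 4, 4, 2, 2, 2, [77, 4, 2]⟩,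
  ⟨2, 2, 4, 281651383, 2, 2, 2, [4]⟩,
  ⟨2, 2, 37, 81, 2, 2, 2, [4, 2]⟩,
  ⟨3, 4, 2, 6, 2, 2, 2, [2, 2]⟩,
  ⟨1, 6, 37, 6, 2, 2, 2, [2, 2]⟩,
  ⟨2, 2, 4, 2751, 2, 2, 2, [2, 4]⟩,
  ⟨2, 2, 37, 81, 2, 2, 2, [2, 4]⟩,
  ⟨2, 2, 6, 37, 2, 2, 2, [4, 4, 2]⟩,
  ⟨2, 2, 37, 77, 4, 2, 2, [4, 2]⟩,
  ⟨2, 2, 4, 6, 2, 2, 2, [2747, 2]⟩,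
  ⟨2, 2, 4, 13127, 2743, 2, 2, []⟩,
  ⟨2, 2, 4, 6, 4, 2, 2, [2, 37, 2]⟩,
  ⟨2, 2, 6, 37, 4, 2, 2, [6, 2, 2]⟩,
  ⟨2, 2, 4, 6, 4, 2, 2, [2, 2, 4, 2]⟩,
  ⟨1, 4, 2743, 6, 2, 2, 2, []⟩,
  ⟨2, 2, 2743, 13127, 4, 2, 2, []⟩,
  ⟨3, 2, 6, 2747, 2, 2, 2, []⟩,
  ⟨1, 2, 4, 344636263, 2, 2, 2, [2]⟩,
  ⟨2, 2, 4, 81, 2743, 2, 2, [2]⟩,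
  ⟨2, 2, 4, 11867, 37, 2, 2, [2]⟩,
  ⟨2, 2, 4, 344636263, 4, 2, 2, [2]⟩,
  ⟨2, 4, 37, 77, 4, 2, 2, [2, 2]⟩,
  ⟨1, 2, 4, 77, 2, 2, 2, [2, 2, 4]⟩,
  ⟨1, 2, 4, 6, 2, 2, 2, [2, 4, 2, 2]⟩,
  ⟨2, 2, 6, 455538316465063, 4, 2, 2, []⟩,
  ⟨2, 2, 4, 2747, 77, 2, 2, [2]⟩,
  ⟨2, 2, 4, 2751, 37, 2, 2, [2]⟩,
  ⟨1, 2, 4, 77, 2, 2, 2, [2, 4, 2]⟩,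
  ⟨2, 2, 4, 37, 2, 2, 2, [6, 2, 4]⟩,
  ⟨2, 2, 6, 37, 4, 2, 2, [4, 2, 2]⟩,
  ⟨1, 2, 4, 158655003091625383, 2, 2, 2, []⟩,
  ⟨2, 2, 37, 2751, 2, 2, 2, [4]⟩,
  ⟨1, 4, 6, 2, 2, 2, 2, [37, 2, 2]⟩,
  ⟨2, 2, 4, 6, 452891048566903, 2, 2, []⟩,
  ⟨2, 2, 2747, 2751, 2, 2, 2, []⟩,
  ⟨1, 2, 37, 81, 2, 2, 2, [2]⟩,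
  ⟨2, 2, 4, 6, 37, 2, 2, [37, 2]⟩,
  ⟨2, 2, 4, 11867, 2, 2, 2, [4, 2]⟩,
  ⟨1, 2, 4, 281651387, 2, 2, 2, [2]⟩,
  ⟨2, 2, 4, 6, 6, 2, 2, [37, 2, 2]⟩,
  ⟨1, 2, 4, 158441204879266423, 2, 2, 2, []⟩,
  ⟨2, 2, 6, 37, 81, 2, 2, [2, 2]⟩,
  ⟨2, 2, 4, 15136007, 37, 2, 2, []⟩,
  ⟨1, 2, 4, 6, 2, 2, 2, [2, 4, 4, 2]⟩,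
  ⟨2, 2, 4, 2743, 81, 2, 2, [2]⟩,
  ⟨2, 2, 4, 15048111, 4, 2, 2, [2]⟩]

end Pool.Agent.H66.F2
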