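import Pool.Agent.H66.F2.Core

/-! Certificate data (generated). -/

set_option autoImplicit false

namespace Pool.Agent.H66.F2

def cC3 : List It := [⟨0, 4, 2, 2, 2, 2, 2, [77]⟩,
  ⟨5, 2, 4, 6, 2, 2, 2, []⟩,
  ⟨0, 4, 2, 2, 2, 2, 2, [2, 6]⟩,
  ⟨6, 4, 2, 4, 6, 2, 2, []⟩,
  ⟨2, 2, 4, 6, 4, 2, 2, [4, 2]⟩,
  ⟨1, 2, 4, 4, 2, 2, 2, [6, 2]⟩,
  ⟨2, 4, 6, 37, 37, 2, 2, []⟩,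
  ⟨2, 4, 6, 2747, 2, 2, 2, []⟩,
  ⟨1, 2, 4, 6, 2, 2, 2, [4, 2]⟩,
  ⟨2, 2, 4, 6, 2747, 2, 2, []⟩,
  ⟨2, 2, 4, 11867, 4, 2, 2, []⟩,
  ⟨2, 4, 37, 77, 4, 2, 2, []⟩,
  ⟨2, 2, 4, 2751, 4, 2, 2, []⟩]

end Pool.Agent.H66.F2
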