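import Pool.Agent.H66.F2.Core

/-! Certificate data (generated). -/

set_option autoImplicit false

namespace Pool.Agent.H66.F2

def cC4 : List It := [⟨0, 2, 37551, 2, 2, 2, 2, []⟩,
  ⟨0, 2, 6, 2, 2, 2, 2, [4, 8]⟩,
  ⟨0, 2, 4, 2, 2, 2, 2, [6, 8]⟩,
  ⟨0, 2, 6, 2, 2, 2, 2, [137]⟩,
  ⟨2, 2, 77, 137, 2, 2, 2, []⟩,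
  ⟨0, 2, 81, 2, 2, 2, 2, [8]⟩,
  ⟨2, 2, 6, 8, 6, 2, 2, [4, 2]⟩,
  ⟨2, 4, 8, 77, 8, 2, 2, [2]⟩,
  ⟨2, 2, 4, 8, 8, 2, 2, [6, 2]⟩,
  ⟨2, 4, 6, 8, 2, 2, 2, [2, 2]⟩,
  ⟨2, 2, 8, 77, 4, 2, 2, [8]⟩,
  ⟨1, 2, 8, 4, 2, 2, 2, [6, 2]⟩,
  ⟨2, 2, 4, 8, 6, 2, 2, [8, 2]⟩,
  ⟨2, 2, 6, 8, 4, 2, 2, [2, 2]⟩,
  ⟨1, 2, 8, 81, 2, 2, 2, [2]⟩,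
  ⟨2, 2, 6, 8, 8, 2, 2, [4, 2]⟩,
  ⟨2, 2, 37, 77, 8, 2, 2, []⟩,
  ⟨2, 2, 4, 77, 2, 2, 2, [8]⟩,
  ⟨6, 4, 2, 8, 6, 2, 2, []⟩,
  ⟨2, 4, 8, 77, 2, 2, 2, [2]⟩,
  ⟨2, 2, 8, 37, 77, 2, 2, []⟩,
  ⟨6, 6, 2, 4, 8, 2, 2, []⟩,
  ⟨1, 2, 8, 4, 2, 2, 2, [77]⟩,
  ⟨2, 2, 4, 77, 8, 2, 2, [2]⟩,
  ⟨2, 8, 37, 77, 2, 2, 2, []⟩,
  ⟨2, 2, 6, 137, 2, 2, 2, [2]⟩,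
  ⟨1, 2, 6, 8, 2, 2, 2, [4, 2]⟩,
  ⟨1, 6, 8, 2, 2, 2, 2, [4, 2]⟩,
  ⟨2, 2, 4, 6, 133, 2, 2, [2]⟩,
  ⟨2, 2, 8, 77, 137, 2, 2, []⟩,
  ⟨2, 2, 4, 8, 141, 2, 2, [2]⟩,
  ⟨1, 2, 8, 11867, 2, 2, 2, []⟩,
  ⟨9, 2, 2, 4, 6, 8, 2, []⟩]

end Pool.Agent.H66.F2
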