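import Pool.Agent.H66.F2.Core

/-! Certificate data (generated). -/

set_option autoImplicit false

namespace Pool.Agent.H66.F2

def cC7 : List It := [⟨0, 4, 133, 2, 2, 2, 2, [6]⟩,
  ⟨0, 4, 2, 2, 2, 2, 2, [8, 6]⟩,
  ⟨0, 4, 8, 2, 2, 2, 2, [77]⟩,
  ⟨11, 4, 6, 2, 8, 2, 2, []⟩,
  ⟨15, 2, 4, 8, 6, 2, 2, []⟩,
  ⟨2, 6, 8, 37, 4, 2, 2, [8]⟩,
  ⟨2, 4, 8, 37, 8, 2, 2, [6]⟩,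
  ⟨2, 6, 8, 37, 137, 2, 2, []⟩,
  ⟨1, 6, 8, 4, 2, 2, 2, [37]⟩,
  ⟨10, 2, 4, 8, 4, 6, 2, []⟩,
  ⟨1, 4, 8, 37, 2, 2, 2, [6]⟩,
  ⟨1, 6, 8, 2747, 2, 2, 2, []⟩]

end Pool.Agent.H66.F2
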