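import Pool.Agent.H66.F2.Core

/-! Certificate data (generated). -/

set_option autoImplicit false

namespace Pool.Agent.H66.F2

def cC8 : List It := [⟨17, 8, 10, 4, 77, 2, 2, []⟩,
  ⟨17, 77, 4, 10, 8, 2, 2, []⟩,
  ⟨17, 77, 10, 4, 8, 2, 2, []⟩,
  ⟨17, 133, 4, 10, 6, 2, 2, []⟩,
  ⟨17, 6, 4, 10, 2, 2, 2, [8]⟩,
  ⟨17, 6, 4, 10, 8, 2, 2, [2]⟩,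
  ⟨17, 6, 10, 4, 2, 2, 2, [8]⟩,
  ⟨17, 6, 10, 4, 8, 2, 2, [2]⟩,
  ⟨17, 8, 4, 10, 2, 2, 2, [6]⟩,
  ⟨17, 8, 4, 10, 6, 2, 2, [2]⟩,
  ⟨17, 8, 10, 4, 6, 2, 2, [2]⟩,
  ⟨2, 2, 4, 17746903215, 4, 2, 2, []⟩,
  ⟨2, 2, 4, 16474392179, 4, 2, 2, []⟩,
  ⟨2, 2, 4, 17743888983, 4, 2, 2, []⟩,
  ⟨2, 2, 4, 16472940071, 4, 2, 2, []⟩,
  ⟨2, 4, 77, 94199, 4, 2, 2, []⟩,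
  ⟨2, 6, 10, 2819554423, 10, 2, 2, []⟩,
  ⟨2, 6, 10, 2818953707, 10, 2, 2, []⟩,
  ⟨2, 6, 10, 15180059, 10, 2, 2, []⟩,
  ⟨2, 6, 10, 15092035, 10, 2, 2, []⟩,
  ⟨2, 2, 4, 6, 4, 2, 2, [94199]⟩,
  ⟨2, 2, 4, 8, 4, 2, 2, [90759]⟩,
  ⟨2, 4, 6, 94199, 4, 2, 2, [2]⟩,
  ⟨2, 6, 8, 10, 10, 2, 2, [2747]⟩,
  ⟨2, 2, 4, 8, 4, 2, 2, [213, 10]⟩,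
  ⟨2, 6, 8, 10, 10, 2, 2, [37, 4]⟩,
  ⟨2, 2, 4, 8, 4, 2, 2, [6, 10, 10]⟩,
  ⟨2, 4, 6, 10, 4, 2, 2, [2, 8, 10]⟩,
  ⟨2, 4, 6, 10, 4, 2, 2, [2, 10, 8]⟩,
  ⟨2, 4, 6, 10, 4, 2, 2, [8, 2, 10]⟩,
  ⟨2, 4, 6, 10, 4, 2, 2, [8, 10, 2]⟩,
  ⟨2, 4, 6, 10, 4, 2, 2, [10, 2, 8]⟩,
  ⟨2, 4, 6, 10, 4, 2, 2, [10, 8, 2]⟩,
  ⟨2, 4, 8, 10, 4, 2, 2, [2, 6, 10]⟩,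
  ⟨2, 4, 8, 10, 4, 2, 2, [2, 10, 6]⟩,
  ⟨2, 4, 8, 10, 4, 2, 2, [6, 2, 10]⟩,
  ⟨2, 4, 8, 10, 4, 2, 2, [6, 10, 2]⟩,
  ⟨2, 4, 8, 10, 4, 2, 2, [10, 2, 6]⟩,
  ⟨2, 4, 8, 10, 4, 2, 2, [10, 6, 2]⟩,
  ⟨2, 6, 8, 10, 10, 2, 2, [2, 4, 4]⟩,
  ⟨2, 2, 4, 8, 16474392171, 2, 2, []⟩,
  ⟨2, 2, 4, 94199, 81, 2, 2, []⟩,
  ⟨2, 2, 6, 10, 15270179291, 2, 2, []⟩,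
  ⟨2, 2, 6, 10, 2821356971, 2, 2, []⟩,
  ⟨2, 2, 6, 10, 15267383299, 2, 2, []⟩,
  ⟨2, 2, 8, 10, 15268781259, 2, 2, []⟩,
  ⟨2, 2, 8, 10, 345476907, 2, 2, []⟩,
  ⟨2, 2, 8, 10, 15267383295, 2, 2, []⟩,
  ⟨2, 4, 6, 10, 2504479559, 2, 2, []⟩,
  ⟨2, 4, 6, 10, 15180071, 2, 2, []⟩,
  ⟨2, 4, 8, 10, 14133175947, 2, 2, []⟩,
  ⟨2, 4, 8, 10, 282221291, 2, 2, []⟩,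
  ⟨2, 4, 8, 10, 344636279, 2, 2, []⟩,
  ⟨2, 4, 8, 10, 281651399, 2, 2, []⟩,
  ⟨18, 2, 4, 81, 10, 8, 2, []⟩,
  ⟨18, 2, 4, 137, 10, 6, 2, []⟩,
  ⟨18, 2, 4, 141, 10, 4, 2, []⟩,
  ⟨18, 2, 8, 81, 10, 4, 2, []⟩,
  ⟨18, 2, 10, 141, 4, 10, 2, []⟩,
  ⟨18, 4, 2, 81, 10, 8, 2, []⟩,
  ⟨18, 4, 6, 133, 10, 4, 2, []⟩,
  ⟨18, 4, 6, 137, 10, 2, 2, []⟩,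
  ⟨18, 4, 8, 37, 10, 6, 2, []⟩,
  ⟨18, 4, 8, 77, 10, 4, 2, []⟩,
  ⟨18, 4, 8, 81, 10, 2, 2, []⟩,
  ⟨18, 6, 8, 205, 4, 10, 2, []⟩,
  ⟨18, 6, 10, 205, 4, 8, 2, []⟩,
  ⟨18, 6, 10, 217, 4, 2, 2, []⟩,
  ⟨18, 8, 4, 77, 10, 4, 2, []⟩,
  ⟨18, 8, 6, 37, 10, 4, 2, []⟩,
  ⟨18, 8, 10, 77, 4, 10, 2, []⟩,
  ⟨18, 8, 10, 213, 4, 2, 2, []⟩,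
  ⟨18, 10, 2, 213, 4, 8, 2, []⟩,
  ⟨18, 10, 8, 77, 4, 10, 2, []⟩,
  ⟨2, 2, 4, 8, 90759, 2, 2, [4]⟩,
  ⟨2, 2, 4, 94199, 6, 2, 2, [4]⟩,
  ⟨2, 2, 6, 10, 37547, 2, 2, [10]⟩,
  ⟨2, 2, 8, 10, 13131, 2, 2, [10]⟩,
  ⟨2, 4, 6, 10, 35387, 2, 2, [10]⟩,
  ⟨2, 4, 6, 10, 2755, 2, 2, [10]⟩,
  ⟨2, 4, 8, 10, 13127, 2, 2, [10]⟩,
  ⟨2, 4, 8, 10, 11867, 2, 2, [10]⟩,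
  ⟨2, 4, 8, 10, 84063, 2, 2, [4]⟩,
  ⟨2, 4, 8, 10, 11879, 2, 2, [4]⟩,
  ⟨18, 2, 4, 6, 10, 4, 2, [8]⟩,
  ⟨18, 2, 4, 6, 10, 8, 2, [4]⟩,
  ⟨18, 2, 4, 8, 10, 4, 2, [6]⟩,
  ⟨18, 2, 4, 8, 10, 6, 2, [4]⟩,
  ⟨18, 2, 6, 10, 4, 8, 2, [10]⟩,
  ⟨18, 2, 6, 10, 4, 10, 2, [8]⟩,
  ⟨18, 4, 2, 6, 10, 4, 2, [8]⟩,
  ⟨18, 4, 2, 6, 10, 8, 2, [4]⟩,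
  ⟨18, 6, 2, 8, 4, 10, 2, [10]⟩,
  ⟨18, 6, 2, 8, 10, 4, 2, [4]⟩]

end Pool.Agent.H66.F2
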