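import Pool.Agent.H66.F2.Ids
import Pool.Agent.H66.F2.DatC1
import Pool.Agent.H66.F2.DatC2
import Pool.Agent.H66.F2.DatC3
import Pool.Agent.H66.F2.DatC4
import Pool.Agent.H66.F2.DatC5
import Pool.Agent.H66.F2.DatC6
import Pool.Agent.H66.F2.DatC7
import Pool.Agent.H66.F2.DatC8

/-! Kernel evaluations of certificates. -/

set_option autoImplicit false

namespace Pool.Agent.H66.F2
set_option maxRecDepth 1000000

theorem kC1 : chk stA d3 cC1 = true := by decide +kernel
theorem kC2 : chk stB d5 cC2 = true := by decide +kernel
theorem kC3 : chk stC d7 cC3 = true := by decide +kernel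
theorem kC4 : chk stD d11 cC4 = true := by decide +kernel
theorem kC5 : chk stE d13 cC5 = true := by decide +kernel
theorem kC6 : chk stF d15 cC6 = true := by decide +kernel
theorem kC7 : chk stG d17 cC7 = true := by decide +kernel
theorem kC8 : chk stH d20 cC8 = true := by decide +kernel

end Pool.Agent.H66.F2
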