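import Pool.Agent.H66.F2.Ids
import Pool.Agent.H66.F2.DatC9

/-! Kernel evaluation of a certificate. -/

set_option autoImplicit false

namespace Pool.Agent.H66.F2
set_option maxRecDepth 1000000

theorem kC9 : chk stI dK cC9 = true := by decide +kernel

end Pool.Agent.H66.F2
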