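import Pool.Agent.H12.Eng.Core

/-! A certificate checker for identities of commutative rings with `x + x = x * x = 0`
(adapted from helper12). -/

set_option autoImplicit false

namespace Pool.Agent.H66.F2

open Pool.Agent.H12.Alt (frc frc_eq)
open Pool.Agent.H12.Eng (Ex val key key_v key_m key_inj key_pos kv kv_key pr pr_eq pr_inj pr_lt uf
  blt_false_of beq_false_of)

/-- Nonassociative rings with `x + x = 0` and `x x = 0`. -/
structure W2 (A : Type*) [NonUnitalNonAssocRing A] : Prop where
  two : ∀ x : A, x + x = 0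
  sq : ∀ x : A, x * x = 0

theorem W2.neg {A : Type*} [NonUnitalNonAssocRing A] (hA : W2 A) (x : A) : -x = x := by
  rw [neg_eq_iff_add_eq_zero]; exact hA.two x

theorem W2.eq_of {A : Type*} [NonUnitalNonAssocRing A] (hA : W2 A) {x y : A}
    (h : x + y = 0) : x = y := by
  have := eq_neg_of_add_eq_zero_left h
  rw [this, hA.neg]

theorem W2.comm {A : Type*} [NonUnitalNonAssocRing A] (hA : W2 A) (x y : A) :
    x * y = y * x := by
  have h := hA.sq (x + y)
  rw [mul_add, add_mul, add_mul, hA.sq x, hA.sq y, zero_add, add_zero] at h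
  exact (hA.eq_of h).symm

noncomputable section

/-- search trees with a counter at every key -/
inductive CT | e | n (l : CT) (k p : ℕ) (r : CT)

def CT.ins (k : ℕ) (t : CT) : CT :=
  CT.rec (.n .e k 1 .e)
    (fun l k' p r ihl ihr => cond (Nat.blt k k') (.n ihl k' p r)
      (cond (Nat.blt k' k) (.n l k' p ihr) (.n l k' (Nat.succ p) r))) t

def CT.ev {M : Type*} [AddCommGroup M] (f : ℕ → M) : CT → M
  | .e => 0
  | .n l k p r => CT.ev f l + p • f k + CT.ev f r

theorem CT.ev_ins {M : Type*} [AddCommGroup M] (f : ℕ → M) (k : ℕ) (t : CT) :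
    (CT.ins k t).ev f = t.ev f + f k := by
  induction t with
  | e => simp [CT.ins, CT.ev]
  | n l k' p r ihl ihr =>
    have h : CT.ins k (.n l k' p r) = cond (Nat.blt k k') (.n (CT.ins k l) k' p r)
      (cond (Nat.blt k' k) (.n l k' p (CT.ins k r)) (.n l k' (Nat.succ p) r)) := rfl
    rw [h]
    cases h1 : Nat.blt k k' with
    | true => simp only [cond_true, CT.ev, ihl]; abel
    | false =>
      cases h2 : Nat.blt k' k with
      | true => simp only [cond_true, cond_false, CT.ev, ihr]; abel
      | false =>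
        have hk : k = k' := by
          have a1 : ¬ (k < k') := by
            intro hh; rw [← Nat.blt_eq] at hh; rw [hh] at h1; exact absurd h1 (by decide)
          have a2 : ¬ (k' < k) := by
            intro hh; rw [← Nat.blt_eq] at hh; rw [hh] at h2; exact absurd h2 (by decide)
          omega
        subst hk
        simp only [cond_false, CT.ev, Nat.succ_eq_add_one, add_smul, one_smul]
        abel

/-- all counters are even -/
def CT.z (t : CT) : Bool :=
  CT.rec true (fun _ _ p _ ihl ihr => cond (Nat.beq (Nat.mod p 2) 0) (cond ihl ihr false) false) t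

theorem CT.z_ev {M : Type*} [AddCommGroup M] (h2 : ∀ x : M, x + x = 0) (f : ℕ → M) (t : CT)
    (h : t.z = true) : t.ev f = 0 := by
  induction t with
  | e => rfl
  | n l k p r ihl ihr =>
    have h' : cond (Nat.beq (Nat.mod p 2) 0) (cond l.z r.z false) false = true := h
    cases h1 : Nat.beq (Nat.mod p 2) 0 with
    | false => simp [h1] at h'
    | true =>
      rw [h1, cond_true] at h'
      cases h3 : l.z with
      | false => simp [h3] at h'
      | true =>
        rw [h3, cond_true] at h'
        have hp : p % 2 = 0 := Nat.eq_of_beq_eq_true h1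
        obtain ⟨q, hq⟩ : ∃ q, p = q + q := ⟨p / 2, by omega⟩
        simp only [CT.ev, ihl h3, ihr h', zero_add, add_zero]
        rw [hq, add_smul]
        exact h2 _

variable {A : Type*} [NonUnitalNonAssocRing A]

/-- value of a key -/
def nv (u : ℕ → A) (a : ℕ) : A := kv (val u) a

theorem nv_key (u : ℕ → A) (E : Ex) : nv u (key E) = val u E := kv_key _ E

theorem nv_not (u : ℕ → A) {a : ℕ} (h : ¬ ∃ E, key E = a) : nv u a = 0 := by
  unfold nv kv
  rw [dif_neg h]

theorem nv_zero (u : ℕ → A) : nv u 0 = 0 := by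
  apply nv_not
  rintro ⟨E, h⟩
  have := key_pos E
  omega

theorem nv_pr (u : ℕ → A) (a b : ℕ) : nv u (2 * pr a b + 1) = nv u a * nv u b := by
  by_cases ha : ∃ E, key E = a
  · by_cases hb : ∃ F, key F = b
    · obtain ⟨E, rfl⟩ := ha
      obtain ⟨F, rfl⟩ := hb
      rw [← key_m, nv_key, nv_key, nv_key]
      rfl
    · rw [nv_not u hb, mul_zero]
      apply nv_not
      rintro ⟨E, h⟩
      cases E with
      | v i => rw [key_v] at h; omega
      | m E F =>
        rw [key_m] at h
        exact hb ⟨F, (pr_inj (show pr (key E) (key F) = pr a b by omega)).2⟩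
  · rw [nv_not u ha, zero_mul]
    apply nv_not
    rintro ⟨E, h⟩
    cases E with
    | v i => rw [key_v] at h; omega
    | m E F =>
      rw [key_m] at h
      exact ha ⟨E, (pr_inj (show pr (key E) (key F) = pr a b by omega)).1⟩

/-- product of keys -/
def mk (x y : ℕ) : ℕ :=
  cond (Nat.blt x y)
    (cond (Nat.beq x 0) 0 (Nat.succ (Nat.mul 2 (Nat.add (Nat.mul y y) x))))
    (cond (Nat.blt y x)
      (cond (Nat.beq y 0) 0 (Nat.succ (Nat.mul 2 (Nat.add (Nat.mul x x) y)))) 0)

theorem nv_mk (hA : W2 A) (u : ℕ → A) (x y : ℕ) : nv u (mk x y) = nv u x * nv u y := by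
  rcases lt_trichotomy x y with h | h | h
  · rcases Nat.eq_zero_or_pos x with h0 | h0
    · subst h0
      have e : mk 0 y = 0 := by
        unfold mk
        rw [Nat.blt_eq.mpr h, cond_true]
        rfl
      rw [e, nv_zero, zero_mul]
    have e : mk x y = 2 * pr x y + 1 := by
      unfold mk
      rw [Nat.blt_eq.mpr h, cond_true, pr_lt h, beq_false_of h0, cond_false]
      rfl
    rw [e, nv_pr]
  · subst h
    have e : mk x x = 0 := by
      unfold mk
      rw [blt_false_of (le_refl x)]
      rfl
    rw [e, nv_zero, hA.sq]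
  · rcases Nat.eq_zero_or_pos y with h0 | h0
    · subst h0
      have e : mk x 0 = 0 := by
        unfold mk
        rw [blt_false_of (le_of_lt h), Nat.blt_eq.mpr h, cond_false, cond_true]
        rfl
      rw [e, nv_zero, mul_zero]
    have e : mk x y = 2 * pr y x + 1 := by
      unfold mk
      rw [blt_false_of (le_of_lt h), Nat.blt_eq.mpr h, cond_false, cond_true, pr_lt h,
        beq_false_of h0, cond_false]
      rfl
    rw [e, nv_pr, hA.comm]

/-- key of an expression whose variables have keys `σ` -/
def ek (σ : ℕ → ℕ) (E : Ex) : ℕ :=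
  Ex.rec σ (fun _ _ x y => frc x fun a => frc y fun b => mk a b) E

theorem nv_ek (hA : W2 A) (u : ℕ → A) (σ : ℕ → ℕ) (E : Ex) :
    nv u (ek σ E) = val (fun i => nv u (σ i)) E := by
  induction E with
  | v i => rfl
  | m a b iha ihb =>
    have e : ek σ (.m a b) = mk (ek σ a) (ek σ b) := by
      change (frc (ek σ a) fun a => frc (ek σ b) fun b => mk a b) = _
      rw [frc_eq, frc_eq]
    rw [e, nv_mk hA, iha, ihb]
    rfl

/-- right multiplications, first element of the list first -/
def rms (l : List ℕ) (a : ℕ) : ℕ :=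
  List.rec (motive := fun _ => ℕ → ℕ) (fun a => a)
    (fun x _ ih a => frc (mk a x) ih) l a

def rmv (l : List A) (a : A) : A := l.foldl (fun x y => x * y) a

theorem nv_rms (hA : W2 A) (u : ℕ → A) (l : List ℕ) (a : ℕ) :
    nv u (rms l a) = rmv (l.map (nv u)) (nv u a) := by
  induction l generalizing a with
  | nil => rfl
  | cons x l ih =>
    have e : rms (x :: l) a = rms l (mk a x) := by
      change frc (mk a x) (rms l) = _
      rw [frc_eq]
    rw [e, ih, nv_mk hA]
    rfl

theorem rmv_zero (w : List A) : rmv w (0 : A) = 0 := by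
  induction w with
  | nil => rfl
  | cons y w ih => change rmv w (0 * y) = 0; rw [zero_mul, ih]

theorem rmv_add (w : List A) (x y : A) : rmv w (x + y) = rmv w x + rmv w y := by
  induction w generalizing x y with
  | nil => rfl
  | cons z w ih =>
    change rmv w ((x + y) * z) = rmv w (x * z) + rmv w (y * z)
    rw [add_mul, ih]

/-- sums of expressions -/
def evS (w : ℕ → A) : List Ex → A
  | [] => 0
  | E :: t => val w E + evS w t

/-- insertion of a nonzero key -/
def insS (a : ℕ) (t : CT) : CT := cond (Nat.beq a 0) t (CT.ins a t)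

theorem ev_insS (u : ℕ → A) (a : ℕ) (t : CT) :
    (insS a t).ev (nv u) = t.ev (nv u) + nv u a := by
  unfold insS
  cases h : Nat.beq a 0 with
  | true =>
    rw [Nat.eq_of_beq_eq_true h, nv_zero, cond_true, add_zero]
  | false => rw [cond_false, CT.ev_ins]

/-- insert the sum `I` with variables replaced by the keys `σ`, multiplied on the right by the
keys in `c` -/
def insI (σ : ℕ → ℕ) (c : List ℕ) (I : List Ex) (t : CT) : CT :=
  List.rec (motive := fun _ => CT → CT) (fun t => t)
    (fun x _ ih t => ih (frc (rms c (ek σ x)) fun a => insS a t)) I t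

theorem ev_insI (hA : W2 A) (u : ℕ → A) (σ : ℕ → ℕ) (c : List ℕ) (I : List Ex) (t : CT) :
    (insI σ c I t).ev (nv u) =
      t.ev (nv u) + rmv (c.map (nv u)) (evS (fun i => nv u (σ i)) I) := by
  induction I generalizing t with
  | nil =>
    change t.ev (nv u) = _ + rmv _ (0 : A)
    rw [rmv_zero, add_zero]
  | cons x I ih =>
    have e : insI σ c (x :: I) t = insI σ c I (insS (rms c (ek σ x)) t) := by
      change insI σ c I (frc (rms c (ek σ x)) _) = _
      rw [frc_eq]
    rw [e, ih, ev_insS, nv_rms hA, nv_ek hA]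
    change _ = _ + rmv _ (val _ x + evS _ I)
    rw [rmv_add]
    abel

/-- certificate item: identity number, keys of the arguments, right multiplications -/
structure It where
  i : ℕ
  a0 : ℕ
  a1 : ℕ
  a2 : ℕ
  a3 : ℕ
  a4 : ℕ
  a5 : ℕ
  c : List ℕ

/-- insert an item -/
def insT (ids : ℕ → List Ex) (x : It) (t : CT) : CT :=
  insI (uf x.a0 x.a1 x.a2 x.a3 x.a4 x.a5) x.c (ids x.i) t

/-- `I` is an identity of `A` in (at most) six variables -/
def Valid (A : Type*) [NonUnitalNonAssocRing A] (I : List Ex) : Prop :=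
  ∀ x0 x1 x2 x3 x4 x5 : A, evS (uf x0 x1 x2 x3 x4 x5) I = 0

theorem uf_comp {α β : Type*} (f : α → β) (a0 a1 a2 a3 a4 a5 : α) :
    (fun i => f (uf a0 a1 a2 a3 a4 a5 i)) = uf (f a0) (f a1) (f a2) (f a3) (f a4) (f a5) := by
  funext i
  match i with
  | 0 => rfl
  | 1 => rfl
  | 2 => rfl
  | 3 => rfl
  | 4 => rfl
  | _ + 5 => rfl

theorem ev_insT (hA : W2 A) (u : ℕ → A) (ids : ℕ → List Ex)
    (hids : ∀ i, Valid A (ids i)) (x : It) (t : CT) :
    (insT ids x t).ev (nv u) = t.ev (nv u) := by
  unfold insT
  rw [ev_insI hA, uf_comp (nv u), hids x.i, rmv_zero, add_zero]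

def insTs (ids : ℕ → List Ex) (l : List It) (t : CT) : CT :=
  List.rec (motive := fun _ => CT → CT) (fun t => t) (fun x _ ih t => ih (insT ids x t)) l t

theorem ev_insTs (hA : W2 A) (u : ℕ → A) (ids : ℕ → List Ex)
    (hids : ∀ i, Valid A (ids i)) (l : List It) (t : CT) :
    (insTs ids l t).ev (nv u) = t.ev (nv u) := by
  induction l generalizing t with
  | nil => rfl
  | cons x l ih =>
    change (insTs ids l (insT ids x t)).ev (nv u) = _
    rw [ih, ev_insT hA u ids hids]

/-- key of a variable -/
def vk (i : ℕ) : ℕ := Nat.add (Nat.mul 2 i) 2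

/-- the check: the target plus the sum of the items is formally zero mod 2 -/
def chk (ids : ℕ → List Ex) (tgt : List Ex) (l : List It) : Bool :=
  CT.z (insTs ids l (insI vk [] tgt .e))

theorem chk_sound (hA : W2 A) (ids : ℕ → List Ex) (hids : ∀ i, Valid A (ids i))
    (tgt : List Ex) (l : List It) (h : chk ids tgt l = true) : Valid A tgt := by
  intro x0 x1 x2 x3 x4 x5
  set u := uf x0 x1 x2 x3 x4 x5 with hu
  have h2 := CT.z_ev hA.two (nv u) _ h
  rw [ev_insTs hA u ids hids, ev_insI hA] at h2
  have h3 : (fun i => nv u (vk i)) = u := by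
    funext i
    have : vk i = key (.v i) := rfl
    rw [this, nv_key]
    rfl
  rw [h3] at h2
  simpa [CT.ev, rmv] using h2

end

end Pool.Agent.H66.F2
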