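import Pool.Agent.H66.F2.Chk1
import Pool.Agent.H66.F2.Chk2

/-!
# Identities of anticommutative 3-Engel rings with `x + x = 0` (MP_1664c7_al)

No partial linearisation is assumed: this is the case of the field with two elements.
-/

set_option autoImplicit false

namespace Pool.Agent.H66.F2

open Pool.Agent.H12.Eng (Ex val uf)

variable {A : Type*} [NonUnitalNonAssocRing A]

/-- Anticommutative 3-Engel rings of characteristic two. -/
structure W3 (A : Type*) [NonUnitalNonAssocRing A] : Prop extends W2 A where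
  eng : ∀ x y : A, ((x * y) * y) * y = 0

/-- the partial linearisation of the Engel identity -/
def Fa (x y z : A) : A := ((x * y) * y) * z + ((x * y) * z) * y + ((x * z) * y) * y

theorem Fa_add1 (x x' y z : A) : Fa (x + x') y z = Fa x y z + Fa x' y z := by
  simp only [Fa, add_mul]; abel

theorem Fa_add3 (x y z z' : A) : Fa x y (z + z') = Fa x y z + Fa x y z' := by
  simp only [Fa, add_mul, mul_add]; abel

theorem Fa_s23 (hA : W3 A) (x y z : A) : Fa x y z = Fa x z y := by
  have h := hA.eng x (y + z)
  have h1 := hA.eng x y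
  have h2 := hA.eng x z
  apply hA.eq_of
  simp only [Fa]
  simp only [mul_add, add_mul] at h
  linear_combination (norm := abel) h - h1 - h2

theorem Fa_add2 (hA : W3 A) (x y y' z : A) : Fa x (y + y') z = Fa x y z + Fa x y' z := by
  rw [Fa_s23 hA, Fa_add3, Fa_s23 hA x z y, Fa_s23 hA x z y']

theorem Fa_yy (hA : W3 A) (x y : A) : Fa x y y = 0 := by
  simp only [Fa, hA.eng, add_zero]

theorem Fa_xx (hA : W3 A) (x z : A) : Fa x x z = 0 := by
  simp only [Fa, hA.sq, zero_mul, zero_add]
  rw [hA.comm x z, hA.eng]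

theorem Fa_s12 (hA : W3 A) (x y z : A) : Fa x y z = Fa y x z := by
  have h := Fa_xx hA (x + y) z
  rw [Fa_add1, Fa_add2 hA, Fa_add2 hA, Fa_xx hA, Fa_xx hA, zero_add, add_zero] at h
  exact hA.eq_of h

theorem Fa_s13 (hA : W3 A) (x y z : A) : Fa x y z = Fa z y x := by
  rw [Fa_s12 hA, Fa_s23 hA, Fa_s12 hA]

theorem Fa_xz (hA : W3 A) (x y : A) : Fa x y x = 0 := by
  rw [Fa_s23 hA, Fa_xx hA]

theorem Fa_zero1 (y z : A) : Fa (0 : A) y z = 0 := by simp [Fa]

theorem Fa_zero3 (x y : A) : Fa x y (0 : A) = 0 := by simp [Fa]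

theorem Fa_zero2 (x z : A) : Fa x (0 : A) z = 0 := by simp [Fa]

theorem p111 (hA : W3 A) (x p q r : A) :
    ((x * p) * q) * r + ((x * p) * r) * q + ((x * q) * p) * r + ((x * q) * r) * p
      + ((x * r) * p) * q + ((x * r) * q) * p = 0 := by
  have h := Fa_add2 hA x p q r
  simp only [Fa, mul_add, add_mul] at h
  linear_combination (norm := abel) h

section valid

variable (hA : W3 A)
include hA

theorem v0 : Valid A d0 := by
  intro x0 x1 x2 x3 x4 x5
  simpa [d0, evS, val, uf] using hA.eng x1 x0

theorem v1 : Valid A d1 := by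
  intro x0 x1 x2 x3 x4 x5
  have h := Fa_s23 hA x2 x0 x1
  have h' : Fa x2 x0 x1 + Fa x2 x1 x0 = 0 := by rw [h, hA.two]
  simp only [Fa] at h'
  simp only [d1, evS, val, uf]
  linear_combination (norm := abel) h'

theorem v2 : Valid A d2 := by
  intro x0 x1 x2 x3 x4 x5
  have h := p111 hA x3 x0 x1 x2
  simp only [d2, evS, val, uf]
  linear_combination (norm := abel) h

theorem vA (i : ℕ) : Valid A (stA i) := by
  unfold stA
  split
  · exact v0 hA
  · exact v1 hA
  · exact v2 hA

theorem v3 : Valid A d3 := chk_sound hA.toW2 stA (vA hA) _ _ kC1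

/-- `F(x,y,z) x x = 0` -/
theorem I1 (x y z : A) : (Fa x y z * x) * x = 0 := by
  have h := v3 hA x y z 0 0 0
  simp only [d3, evS, val, uf] at h
  simp only [Fa, add_mul]
  linear_combination (norm := abel) h

theorem v4 : Valid A d4 := by
  intro x0 x1 x2 x3 x4 x5
  have h := I1 hA (x0 + x3) x1 x2
  have h1 := I1 hA x0 x1 x2
  have h2 := I1 hA x3 x1 x2
  simp only [Fa, add_mul, mul_add] at h h1 h2
  simp only [d4, evS, val, uf]
  linear_combination (norm := abel) h - h1 - h2

theorem vB (i : ℕ) : Valid A (stB i) := by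
  unfold stB
  split
  · exact v0 hA
  · exact v1 hA
  · exact v2 hA
  · exact v3 hA
  · exact v4 hA

theorem v5 : Valid A d5 := chk_sound hA.toW2 stB (vB hA) _ _ kC2

/-- `F(x,y,z) x y = 0` -/
theorem I2 (x y z : A) : (Fa x y z * x) * y = 0 := by
  have h := v5 hA x y z 0 0 0
  simp only [d5, evS, val, uf] at h
  simp only [Fa, add_mul]
  linear_combination (norm := abel) h

theorem I2p (x y z w : A) : (Fa x y z * w) * y + (Fa w y z * x) * y = 0 := by
  have h := I2 hA (x + w) y z
  have h1 := I2 hA x y z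
  have h2 := I2 hA w y z
  simp only [Fa_add1, add_mul, mul_add] at h
  linear_combination (norm := abel) h - h1 - h2

theorem I2pp (x y z w u : A) : (Fa x y z * w) * u + (Fa x u z * w) * y + (Fa w y z * x) * u
    + (Fa w u z * x) * y = 0 := by
  have h := I2p hA x (y + u) z w
  have h1 := I2p hA x y z w
  have h2 := I2p hA x u z w
  simp only [Fa_add2 hA, add_mul, mul_add] at h
  linear_combination (norm := abel) h - h1 - h2

theorem v6 : Valid A d6 := by
  intro x0 x1 x2 x3 x4 x5
  have h := I2p hA x0 x1 x2 x3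
  simp only [Fa, add_mul] at h
  simp only [d6, evS, val, uf]
  linear_combination (norm := abel) h

theorem v9 : Valid A d9 := by
  intro x0 x1 x2 x3 x4 x5
  have h := I2pp hA x0 x1 x2 x3 x4
  simp only [Fa, add_mul] at h
  simp only [d9, evS, val, uf]
  linear_combination (norm := abel) h

theorem vC (i : ℕ) : Valid A (stC i) := by
  unfold stC
  split
  · exact v0 hA
  · exact v1 hA
  · exact v2 hA
  · exact v3 hA
  · exact v4 hA
  · exact v5 hA
  · exact v6 hA

theorem v7 : Valid A d7 := chk_sound hA.toW2 stC (vC hA) _ _ kC3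

/-- `F(x,y,z) (x y) = 0` -/
theorem I3 (x y z : A) : Fa x y z * (x * y) = 0 := by
  have h := v7 hA x y z 0 0 0
  simp only [d7, evS, val, uf] at h
  simp only [Fa, add_mul]
  linear_combination (norm := abel) h

theorem I3p (x y z w : A) : Fa x y z * (w * y) + Fa w y z * (x * y) = 0 := by
  have h := I3 hA (x + w) y z
  have h1 := I3 hA x y z
  have h2 := I3 hA w y z
  simp only [Fa_add1, add_mul, mul_add] at h
  linear_combination (norm := abel) h - h1 - h2

theorem I3pp (x y z w u : A) : Fa x y z * (w * u) + Fa x u z * (w * y) + Fa w y z * (x * u)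
    + Fa w u z * (x * y) = 0 := by
  have h := I3p hA x (y + u) z w
  have h1 := I3p hA x y z w
  have h2 := I3p hA x u z w
  simp only [Fa_add2 hA, add_mul, mul_add] at h
  linear_combination (norm := abel) h - h1 - h2

theorem v8 : Valid A d8 := by
  intro x0 x1 x2 x3 x4 x5
  have h := I3p hA x0 x1 x2 x3
  simp only [Fa, add_mul] at h
  simp only [d8, evS, val, uf]
  linear_combination (norm := abel) h

theorem v10 : Valid A d10 := by
  intro x0 x1 x2 x3 x4 x5
  have h := I3pp hA x0 x1 x2 x3 x4
  rw [hA.comm x3 x4, hA.comm x3 x1, hA.comm x0 x4, hA.comm x0 x1] at h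
  simp only [Fa, add_mul] at h
  simp only [d10, evS, val, uf]
  linear_combination (norm := abel) h

theorem vD (i : ℕ) : Valid A (stD i) := by
  unfold stD
  split
  · exact v0 hA
  · exact v1 hA
  · exact v2 hA
  · exact v3 hA
  · exact v4 hA
  · exact v5 hA
  · exact v6 hA
  · exact v7 hA
  · exact v8 hA
  · exact v9 hA
  · exact v10 hA

theorem v11 : Valid A d11 := chk_sound hA.toW2 stD (vD hA) _ _ kC4

/-- `F(xy, w, xz) = 0` -/
theorem M4 (x y w z : A) : Fa (x * y) w (x * z) = 0 := by
  have h := v11 hA x y z w 0 0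
  simp only [d11, evS, val, uf] at h
  simp only [Fa]
  linear_combination (norm := abel) h

theorem M4p (x y w z u : A) : Fa (x * y) w (u * z) + Fa (u * y) w (x * z) = 0 := by
  have h := M4 hA (x + u) y w z
  have h1 := M4 hA x y w z
  have h2 := M4 hA u y w z
  simp only [add_mul, Fa_add1, Fa_add3] at h
  linear_combination (norm := abel) h - h1 - h2

theorem v12 : Valid A d12 := by
  intro x0 x1 x2 x3 x4 x5
  have h := M4p hA x0 x1 x3 x2 x4
  simp only [Fa] at h
  simp only [d12, evS, val, uf]
  linear_combination (norm := abel) h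

theorem vE (i : ℕ) : Valid A (stE i) := by
  unfold stE
  split
  · exact v0 hA
  · exact v1 hA
  · exact v2 hA
  · exact v3 hA
  · exact v4 hA
  · exact v5 hA
  · exact v6 hA
  · exact v7 hA
  · exact v8 hA
  · exact v9 hA
  · exact v10 hA
  · exact v11 hA
  · exact v12 hA

theorem v13 : Valid A d13 := chk_sound hA.toW2 stE (vE hA) _ _ kC5

/-- `F(x,y,z) w w = F(w,y,z) x w + F(w,y,z) w x` -/
theorem G3 (x y z w : A) : (Fa x y z * w) * w + (Fa w y z * x) * w + (Fa w y z * w) * x = 0 := by
  have h := v13 hA x y z w 0 0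
  simp only [d13, evS, val, uf] at h
  simp only [Fa, add_mul]
  linear_combination (norm := abel) h

theorem G3p (x y z w u : A) : (Fa x y z * w) * u + (Fa x y z * u) * w + (Fa w y z * x) * u
    + (Fa w y z * u) * x + (Fa u y z * x) * w + (Fa u y z * w) * x = 0 := by
  have h := G3 hA x y z (w + u)
  have h1 := G3 hA x y z w
  have h2 := G3 hA x y z u
  simp only [Fa_add1, add_mul, mul_add] at h
  linear_combination (norm := abel) h - h1 - h2

theorem v14 : Valid A d14 := by
  intro x0 x1 x2 x3 x4 x5
  have h := G3p hA x0 x1 x2 x3 x4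
  simp only [Fa, add_mul] at h
  simp only [d14, evS, val, uf]
  linear_combination (norm := abel) h

theorem vF (i : ℕ) : Valid A (stF i) := by
  unfold stF
  split
  · exact v0 hA
  · exact v1 hA
  · exact v2 hA
  · exact v3 hA
  · exact v4 hA
  · exact v5 hA
  · exact v6 hA
  · exact v7 hA
  · exact v8 hA
  · exact v9 hA
  · exact v10 hA
  · exact v11 hA
  · exact v12 hA
  · exact v13 hA
  · exact v14 hA

theorem v15 : Valid A d15 := chk_sound hA.toW2 stF (vF hA) _ _ kC6

/-- `F(x,y,z) (y w) = F(x,y,z) y w` -/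
theorem K1 (x y z w : A) : Fa x y z * (y * w) + (Fa x y z * y) * w = 0 := by
  have h := v15 hA x y z w 0 0
  simp only [d15, evS, val, uf] at h
  simp only [Fa, add_mul]
  linear_combination (norm := abel) h

theorem K1p (x y z w u : A) : Fa x y z * (u * w) + Fa x u z * (y * w) + (Fa x y z * u) * w
    + (Fa x u z * y) * w = 0 := by
  have h := K1 hA x (y + u) z w
  have h1 := K1 hA x y z w
  have h2 := K1 hA x u z w
  simp only [Fa_add2 hA, add_mul, mul_add] at h
  linear_combination (norm := abel) h - h1 - h2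

theorem v16 : Valid A d16 := by
  intro x0 x1 x2 x3 x4 x5
  have h := K1p hA x0 x1 x2 x3 x4
  rw [hA.comm x4 x3] at h
  simp only [Fa, add_mul] at h
  simp only [d16, evS, val, uf]
  linear_combination (norm := abel) h

theorem vG (i : ℕ) : Valid A (stG i) := by
  unfold stG
  split
  · exact v0 hA
  · exact v1 hA
  · exact v2 hA
  · exact v3 hA
  · exact v4 hA
  · exact v5 hA
  · exact v6 hA
  · exact v7 hA
  · exact v8 hA
  · exact v9 hA
  · exact v10 hA
  · exact v11 hA
  · exact v12 hA
  · exact v13 hA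
  · exact v14 hA
  · exact v15 hA
  · exact v16 hA

theorem v17 : Valid A d17 := chk_sound hA.toW2 stG (vG hA) _ _ kC7

/-- `F(xyy, z, w) = 0` -/
theorem Z0 (x y z w : A) : Fa ((x * y) * y) z w = 0 := by
  have h := v17 hA x y z w 0 0
  simp only [d17, evS, val, uf] at h
  simp only [Fa]
  linear_combination (norm := abel) h

theorem Z0p (x y u z w : A) : Fa ((x * y) * u) z w + Fa ((x * u) * y) z w = 0 := by
  have h := Z0 hA x (y + u) z w
  have h1 := Z0 hA x y z w
  have h2 := Z0 hA x u z w
  simp only [add_mul, mul_add, Fa_add1] at h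
  linear_combination (norm := abel) h - h1 - h2

theorem v18 : Valid A d18 := by
  intro x0 x1 x2 x3 x4 x5
  have h := Z0p hA x0 x1 x2 x3 x4
  simp only [Fa] at h
  simp only [d18, evS, val, uf]
  linear_combination (norm := abel) h

/-- `F(F(x,y,z), u, v) = 0` -/
theorem P1 (x y z u v : A) : Fa (Fa x y z) u v = 0 := by
  have e : Fa x y z = ((x * y) * y) * z + ((x * y) * z) * y + ((x * z) * y) * y := rfl
  rw [e, Fa_add1, Fa_add1, Z0 hA, add_zero]
  exact Z0p hA (x * y) y z u v

theorem vH (i : ℕ) : Valid A (stH i) := by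
  unfold stH
  split
  · exact v0 hA
  · exact v1 hA
  · exact v2 hA
  · exact v3 hA
  · exact v4 hA
  · exact v5 hA
  · exact v6 hA
  · exact v7 hA
  · exact v8 hA
  · exact v9 hA
  · exact v10 hA
  · exact v11 hA
  · exact v12 hA
  · exact v13 hA
  · exact v14 hA
  · exact v15 hA
  · exact v16 hA
  · exact v17 hA
  · exact v18 hA

theorem v20 : Valid A d20 := chk_sound hA.toW2 stH (vH hA) _ _ kC8

/-- `F(x,y,z) (u v v) = 0` -/
theorem P2 (x y z u v : A) : Fa x y z * ((u * v) * v) = 0 := by
  have h := v20 hA x y z u v 0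
  simp only [d20, evS, val, uf] at h
  simp only [Fa, add_mul]
  linear_combination (norm := abel) h

theorem P2p (x y z u v w : A) :
    Fa x y z * ((u * v) * w) + Fa x y z * ((u * w) * v) = 0 := by
  have h := P2 hA x y z u (v + w)
  have h1 := P2 hA x y z u v
  have h2 := P2 hA x y z u w
  simp only [add_mul, mul_add] at h
  linear_combination (norm := abel) h - h1 - h2

theorem v21 : Valid A d21 := by
  intro x0 x1 x2 x3 x4 x5
  have h := P2p hA x0 x1 x2 x3 x4 x5
  simp only [Fa, add_mul] at h
  simp only [d21, evS, val, uf]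
  linear_combination (norm := abel) h

/-- `F(x,y,z) y w` is alternating in `x`, `w` -/
theorem Mu (x y z w : A) : (Fa x y z * y) * w + (Fa w y z * y) * x = 0 := by
  have h := I2 hA y (x + w) z
  have h1 := I2 hA y x z
  have h2 := I2 hA y w z
  simp only [Fa_add2 hA, add_mul, mul_add] at h
  rw [Fa_s12 hA x y z, Fa_s12 hA w y z]
  linear_combination (norm := abel) h - h1 - h2

theorem v26 : Valid A d26 := by
  intro x0 x1 x2 x3 x4 x5
  have h := Mu hA x0 x1 x2 x3
  simp only [Fa, add_mul] at h
  simp only [d26, evS, val, uf]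
  linear_combination (norm := abel) h

theorem vI (i : ℕ) : Valid A (stI i) := by
  unfold stI
  split
  · exact v0 hA
  · exact v1 hA
  · exact v2 hA
  · exact v3 hA
  · exact v4 hA
  · exact v5 hA
  · exact v6 hA
  · exact v7 hA
  · exact v8 hA
  · exact v9 hA
  · exact v10 hA
  · exact v11 hA
  · exact v12 hA
  · exact v13 hA
  · exact v14 hA
  · exact v15 hA
  · exact v16 hA
  · exact v17 hA
  · exact v18 hA
  · exact v20 hA
  · exact v21 hA
  · exact v26 hA

theorem vK : Valid A dK := chk_sound hA.toW2 stI (vI hA) _ _ kC9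

/-- `F(x,y,z) (u v x) = 0` -/
theorem K2 (x y z u v : A) : Fa x y z * ((u * v) * x) = 0 := by
  have h := vK hA x y z u v 0
  simp only [dK, evS, val, uf] at h
  simp only [Fa, add_mul]
  linear_combination (norm := abel) h

end valid

end Pool.Agent.H66.F2
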