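import Pool.Agent.H66.F2.Core

/-! The identities used by the certificates (generated). -/

set_option autoImplicit false

namespace Pool.Agent.H66.F2

open Pool.Agent.H12.Eng (Ex)

/-- `(b a a a)` -/
def d0 : List Ex := [(.m (.m (.m (.v 1) (.v 0)) (.v 0)) (.v 0))]

/-- `(c a a b)+(c a b a)+(c b a a)+(c b b a)+(c b a b)+(c a b b)` -/
def d1 : List Ex := [(.m (.m (.m (.v 2) (.v 0)) (.v 0)) (.v 1)),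
  (.m (.m (.m (.v 2) (.v 0)) (.v 1)) (.v 0)),
  (.m (.m (.m (.v 2) (.v 1)) (.v 0)) (.v 0)),
  (.m (.m (.m (.v 2) (.v 1)) (.v 1)) (.v 0)),
  (.m (.m (.m (.v 2) (.v 1)) (.v 0)) (.v 1)),
  (.m (.m (.m (.v 2) (.v 0)) (.v 1)) (.v 1))]

/-- `(d a b c)+(d a c b)+(d b a c)+(d b c a)+(d c a b)+(d c b a)` -/
def d2 : List Ex := [(.m (.m (.m (.v 3) (.v 0)) (.v 1)) (.v 2)),
  (.m (.m (.m (.v 3) (.v 0)) (.v 2)) (.v 1)),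
  (.m (.m (.m (.v 3) (.v 1)) (.v 0)) (.v 2)),
  (.m (.m (.m (.v 3) (.v 1)) (.v 2)) (.v 0)),
  (.m (.m (.m (.v 3) (.v 2)) (.v 0)) (.v 1)),
  (.m (.m (.m (.v 3) (.v 2)) (.v 1)) (.v 0))]

/-- `(F(a,b,c) a a)` -/
def d3 : List Ex := [(.m (.m (.m (.m (.m (.v 0) (.v 1)) (.v 1)) (.v 2)) (.v 0)) (.v 0)),
  (.m (.m (.m (.m (.m (.v 0) (.v 1)) (.v 2)) (.v 1)) (.v 0)) (.v 0)),
  (.m (.m (.m (.m (.m (.v 0) (.v 2)) (.v 1)) (.v 1)) (.v 0)) (.v 0))]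

/-- `(F(a,b,c) d d)+(F(a,b,c) a d)+(F(a,b,c) d a)+(F(d,b,c) d a)+(F(d,b,c) a d)+(F(d,b,c) a a)` -/
def d4 : List Ex := [(.m (.m (.m (.m (.m (.v 0) (.v 1)) (.v 1)) (.v 2)) (.v 3)) (.v 3)),
  (.m (.m (.m (.m (.m (.v 0) (.v 1)) (.v 2)) (.v 1)) (.v 3)) (.v 3)),
  (.m (.m (.m (.m (.m (.v 0) (.v 2)) (.v 1)) (.v 1)) (.v 3)) (.v 3)),
  (.m (.m (.m (.m (.m (.v 0) (.v 1)) (.v 1)) (.v 2)) (.v 0)) (.v 3)),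
  (.m (.m (.m (.m (.m (.v 0) (.v 1)) (.v 2)) (.v 1)) (.v 0)) (.v 3)),
  (.m (.m (.m (.m (.m (.v 0) (.v 2)) (.v 1)) (.v 1)) (.v 0)) (.v 3)),
  (.m (.m (.m (.m (.m (.v 0) (.v 1)) (.v 1)) (.v 2)) (.v 3)) (.v 0)),
  (.m (.m (.m (.m (.m (.v 0) (.v 1)) (.v 2)) (.v 1)) (.v 3)) (.v 0)),
  (.m (.m (.m (.m (.m (.v 0) (.v 2)) (.v 1)) (.v 1)) (.v 3)) (.v 0)),
  (.m (.m (.m (.m (.m (.v 3) (.v 1)) (.v 1)) (.v 2)) (.v 3)) (.v 0)),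
  (.m (.m (.m (.m (.m (.v 3) (.v 1)) (.v 2)) (.v 1)) (.v 3)) (.v 0)),
  (.m (.m (.m (.m (.m (.v 3) (.v 2)) (.v 1)) (.v 1)) (.v 3)) (.v 0)),
  (.m (.m (.m (.m (.m (.v 3) (.v 1)) (.v 1)) (.v 2)) (.v 0)) (.v 3)),
  (.m (.m (.m (.m (.m (.v 3) (.v 1)) (.v 2)) (.v 1)) (.v 0)) (.v 3)),
  (.m (.m (.m (.m (.m (.v 3) (.v 2)) (.v 1)) (.v 1)) (.v 0)) (.v 3)),
  (.m (.m (.m (.m (.m (.v 3) (.v 1)) (.v 1)) (.v 2)) (.v 0)) (.v 0)),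
  (.m (.m (.m (.m (.m (.v 3) (.v 1)) (.v 2)) (.v 1)) (.v 0)) (.v 0)),
  (.m (.m (.m (.m (.m (.v 3) (.v 2)) (.v 1)) (.v 1)) (.v 0)) (.v 0))]

/-- `(F(a,b,c) a b)` -/
def d5 : List Ex := [(.m (.m (.m (.m (.m (.v 0) (.v 1)) (.v 1)) (.v 2)) (.v 0)) (.v 1)),
  (.m (.m (.m (.m (.m (.v 0) (.v 1)) (.v 2)) (.v 1)) (.v 0)) (.v 1)),
  (.m (.m (.m (.m (.m (.v 0) (.v 2)) (.v 1)) (.v 1)) (.v 0)) (.v 1))]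

/-- `(F(a,b,c) d b)+(F(d,b,c) a b)` -/
def d6 : List Ex := [(.m (.m (.m (.m (.m (.v 0) (.v 1)) (.v 1)) (.v 2)) (.v 3)) (.v 1)),
  (.m (.m (.m (.m (.m (.v 0) (.v 1)) (.v 2)) (.v 1)) (.v 3)) (.v 1)),
  (.m (.m (.m (.m (.m (.v 0) (.v 2)) (.v 1)) (.v 1)) (.v 3)) (.v 1)),
  (.m (.m (.m (.m (.m (.v 3) (.v 1)) (.v 1)) (.v 2)) (.v 0)) (.v 1)),
  (.m (.m (.m (.m (.m (.v 3) (.v 1)) (.v 2)) (.v 1)) (.v 0)) (.v 1)),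
  (.m (.m (.m (.m (.m (.v 3) (.v 2)) (.v 1)) (.v 1)) (.v 0)) (.v 1))]

/-- `(F(a,b,c) (a b))` -/
def d7 : List Ex := [(.m (.m (.m (.m (.v 0) (.v 1)) (.v 1)) (.v 2)) (.m (.v 0) (.v 1))),
  (.m (.m (.m (.m (.v 0) (.v 1)) (.v 2)) (.v 1)) (.m (.v 0) (.v 1))),
  (.m (.m (.m (.m (.v 0) (.v 2)) (.v 1)) (.v 1)) (.m (.v 0) (.v 1)))]

/-- `(F(a,b,c) (d b))+(F(d,b,c) (a b))` -/
def d8 : List Ex := [(.m (.m (.m (.m (.v 0) (.v 1)) (.v 1)) (.v 2)) (.m (.v 3) (.v 1))),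
  (.m (.m (.m (.m (.v 0) (.v 1)) (.v 2)) (.v 1)) (.m (.v 3) (.v 1))),
  (.m (.m (.m (.m (.v 0) (.v 2)) (.v 1)) (.v 1)) (.m (.v 3) (.v 1))),
  (.m (.m (.m (.m (.v 3) (.v 1)) (.v 1)) (.v 2)) (.m (.v 0) (.v 1))),
  (.m (.m (.m (.m (.v 3) (.v 1)) (.v 2)) (.v 1)) (.m (.v 0) (.v 1))),
  (.m (.m (.m (.m (.v 3) (.v 2)) (.v 1)) (.v 1)) (.m (.v 0) (.v 1)))]

/-- `(F(a,b,c) d e)+(F(a,e,c) d b)+(F(d,b,c) a e)+(F(d,e,c) a b)` -/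
def d9 : List Ex := [(.m (.m (.m (.m (.m (.v 0) (.v 1)) (.v 1)) (.v 2)) (.v 3)) (.v 4)),
  (.m (.m (.m (.m (.m (.v 0) (.v 1)) (.v 2)) (.v 1)) (.v 3)) (.v 4)),
  (.m (.m (.m (.m (.m (.v 0) (.v 2)) (.v 1)) (.v 1)) (.v 3)) (.v 4)),
  (.m (.m (.m (.m (.m (.v 0) (.v 4)) (.v 4)) (.v 2)) (.v 3)) (.v 1)),
  (.m (.m (.m (.m (.m (.v 0) (.v 4)) (.v 2)) (.v 4)) (.v 3)) (.v 1)),
  (.m (.m (.m (.m (.m (.v 0) (.v 2)) (.v 4)) (.v 4)) (.v 3)) (.v 1)),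
  (.m (.m (.m (.m (.m (.v 3) (.v 1)) (.v 1)) (.v 2)) (.v 0)) (.v 4)),
  (.m (.m (.m (.m (.m (.v 3) (.v 1)) (.v 2)) (.v 1)) (.v 0)) (.v 4)),
  (.m (.m (.m (.m (.m (.v 3) (.v 2)) (.v 1)) (.v 1)) (.v 0)) (.v 4)),
  (.m (.m (.m (.m (.m (.v 3) (.v 4)) (.v 4)) (.v 2)) (.v 0)) (.v 1)),
  (.m (.m (.m (.m (.m (.v 3) (.v 4)) (.v 2)) (.v 4)) (.v 0)) (.v 1)),
  (.m (.m (.m (.m (.m (.v 3) (.v 2)) (.v 4)) (.v 4)) (.v 0)) (.v 1))]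

/-- `(F(a,b,c) (e d))+(F(a,e,c) (b d))+(F(d,b,c) (e a))+(F(d,e,c) (b a))` -/
def d10 : List Ex := [(.m (.m (.m (.m (.v 0) (.v 1)) (.v 1)) (.v 2)) (.m (.v 4) (.v 3))),
  (.m (.m (.m (.m (.v 0) (.v 1)) (.v 2)) (.v 1)) (.m (.v 4) (.v 3))),
  (.m (.m (.m (.m (.v 0) (.v 2)) (.v 1)) (.v 1)) (.m (.v 4) (.v 3))),
  (.m (.m (.m (.m (.v 0) (.v 4)) (.v 4)) (.v 2)) (.m (.v 1) (.v 3))),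
  (.m (.m (.m (.m (.v 0) (.v 4)) (.v 2)) (.v 4)) (.m (.v 1) (.v 3))),
  (.m (.m (.m (.m (.v 0) (.v 2)) (.v 4)) (.v 4)) (.m (.v 1) (.v 3))),
  (.m (.m (.m (.m (.v 3) (.v 1)) (.v 1)) (.v 2)) (.m (.v 4) (.v 0))),
  (.m (.m (.m (.m (.v 3) (.v 1)) (.v 2)) (.v 1)) (.m (.v 4) (.v 0))),
  (.m (.m (.m (.m (.v 3) (.v 2)) (.v 1)) (.v 1)) (.m (.v 4) (.v 0))),
  (.m (.m (.m (.m (.v 3) (.v 4)) (.v 4)) (.v 2)) (.m (.v 1) (.v 0))),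
  (.m (.m (.m (.m (.v 3) (.v 4)) (.v 2)) (.v 4)) (.m (.v 1) (.v 0))),
  (.m (.m (.m (.m (.v 3) (.v 2)) (.v 4)) (.v 4)) (.m (.v 1) (.v 0)))]

/-- `F((a b),d,(a c))` -/
def d11 : List Ex := [(.m (.m (.m (.m (.v 0) (.v 1)) (.v 3)) (.v 3)) (.m (.v 0) (.v 2))),
  (.m (.m (.m (.m (.v 0) (.v 1)) (.v 3)) (.m (.v 0) (.v 2))) (.v 3)),
  (.m (.m (.m (.m (.v 0) (.v 1)) (.m (.v 0) (.v 2))) (.v 3)) (.v 3))]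

/-- `F((a b),d,(e c))+F((e b),d,(a c))` -/
def d12 : List Ex := [(.m (.m (.m (.m (.v 0) (.v 1)) (.v 3)) (.v 3)) (.m (.v 4) (.v 2))),
  (.m (.m (.m (.m (.v 0) (.v 1)) (.v 3)) (.m (.v 4) (.v 2))) (.v 3)),
  (.m (.m (.m (.m (.v 0) (.v 1)) (.m (.v 4) (.v 2))) (.v 3)) (.v 3)),
  (.m (.m (.m (.m (.v 4) (.v 1)) (.v 3)) (.v 3)) (.m (.v 0) (.v 2))),
  (.m (.m (.m (.m (.v 4) (.v 1)) (.v 3)) (.m (.v 0) (.v 2))) (.v 3)),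
  (.m (.m (.m (.m (.v 4) (.v 1)) (.m (.v 0) (.v 2))) (.v 3)) (.v 3))]

/-- `(F(a,b,c) d d)+(F(d,b,c) a d)+(F(d,b,c) d a)` -/
def d13 : List Ex := [(.m (.m (.m (.m (.m (.v 0) (.v 1)) (.v 1)) (.v 2)) (.v 3)) (.v 3)),
  (.m (.m (.m (.m (.m (.v 0) (.v 1)) (.v 2)) (.v 1)) (.v 3)) (.v 3)),
  (.m (.m (.m (.m (.m (.v 0) (.v 2)) (.v 1)) (.v 1)) (.v 3)) (.v 3)),
  (.m (.m (.m (.m (.m (.v 3) (.v 1)) (.v 1)) (.v 2)) (.v 0)) (.v 3)),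
  (.m (.m (.m (.m (.m (.v 3) (.v 1)) (.v 2)) (.v 1)) (.v 0)) (.v 3)),
  (.m (.m (.m (.m (.m (.v 3) (.v 2)) (.v 1)) (.v 1)) (.v 0)) (.v 3)),
  (.m (.m (.m (.m (.m (.v 3) (.v 1)) (.v 1)) (.v 2)) (.v 3)) (.v 0)),
  (.m (.m (.m (.m (.m (.v 3) (.v 1)) (.v 2)) (.v 1)) (.v 3)) (.v 0)),
  (.m (.m (.m (.m (.m (.v 3) (.v 2)) (.v 1)) (.v 1)) (.v 3)) (.v 0))]

/-- `(F(a,b,c) d e)+(F(a,b,c) e d)+(F(d,b,c) a e)+(F(d,b,c) e a)+(F(e,b,c) a d)+(F(e,b,c) d a)` -/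
def d14 : List Ex := [(.m (.m (.m (.m (.m (.v 0) (.v 1)) (.v 1)) (.v 2)) (.v 3)) (.v 4)),
  (.m (.m (.m (.m (.m (.v 0) (.v 1)) (.v 2)) (.v 1)) (.v 3)) (.v 4)),
  (.m (.m (.m (.m (.m (.v 0) (.v 2)) (.v 1)) (.v 1)) (.v 3)) (.v 4)),
  (.m (.m (.m (.m (.m (.v 0) (.v 1)) (.v 1)) (.v 2)) (.v 4)) (.v 3)),
  (.m (.m (.m (.m (.m (.v 0) (.v 1)) (.v 2)) (.v 1)) (.v 4)) (.v 3)),
  (.m (.m (.m (.m (.m (.v 0) (.v 2)) (.v 1)) (.v 1)) (.v 4)) (.v 3)),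
  (.m (.m (.m (.m (.m (.v 3) (.v 1)) (.v 1)) (.v 2)) (.v 0)) (.v 4)),
  (.m (.m (.m (.m (.m (.v 3) (.v 1)) (.v 2)) (.v 1)) (.v 0)) (.v 4)),
  (.m (.m (.m (.m (.m (.v 3) (.v 2)) (.v 1)) (.v 1)) (.v 0)) (.v 4)),
  (.m (.m (.m (.m (.m (.v 3) (.v 1)) (.v 1)) (.v 2)) (.v 4)) (.v 0)),
  (.m (.m (.m (.m (.m (.v 3) (.v 1)) (.v 2)) (.v 1)) (.v 4)) (.v 0)),
  (.m (.m (.m (.m (.m (.v 3) (.v 2)) (.v 1)) (.v 1)) (.v 4)) (.v 0)),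
  (.m (.m (.m (.m (.m (.v 4) (.v 1)) (.v 1)) (.v 2)) (.v 0)) (.v 3)),
  (.m (.m (.m (.m (.m (.v 4) (.v 1)) (.v 2)) (.v 1)) (.v 0)) (.v 3)),
  (.m (.m (.m (.m (.m (.v 4) (.v 2)) (.v 1)) (.v 1)) (.v 0)) (.v 3)),
  (.m (.m (.m (.m (.m (.v 4) (.v 1)) (.v 1)) (.v 2)) (.v 3)) (.v 0)),
  (.m (.m (.m (.m (.m (.v 4) (.v 1)) (.v 2)) (.v 1)) (.v 3)) (.v 0)),
  (.m (.m (.m (.m (.m (.v 4) (.v 2)) (.v 1)) (.v 1)) (.v 3)) (.v 0))]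

/-- `(F(a,b,c) (b d))+(F(a,b,c) b d)` -/
def d15 : List Ex := [(.m (.m (.m (.m (.v 0) (.v 1)) (.v 1)) (.v 2)) (.m (.v 1) (.v 3))),
  (.m (.m (.m (.m (.v 0) (.v 1)) (.v 2)) (.v 1)) (.m (.v 1) (.v 3))),
  (.m (.m (.m (.m (.v 0) (.v 2)) (.v 1)) (.v 1)) (.m (.v 1) (.v 3))),
  (.m (.m (.m (.m (.m (.v 0) (.v 1)) (.v 1)) (.v 2)) (.v 1)) (.v 3)),
  (.m (.m (.m (.m (.m (.v 0) (.v 1)) (.v 2)) (.v 1)) (.v 1)) (.v 3)),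
  (.m (.m (.m (.m (.m (.v 0) (.v 2)) (.v 1)) (.v 1)) (.v 1)) (.v 3))]

/-- `(F(a,b,c) (d e))+(F(a,e,c) (b d))+(F(a,b,c) e d)+(F(a,e,c) b d)` -/
def d16 : List Ex := [(.m (.m (.m (.m (.v 0) (.v 1)) (.v 1)) (.v 2)) (.m (.v 3) (.v 4))),
  (.m (.m (.m (.m (.v 0) (.v 1)) (.v 2)) (.v 1)) (.m (.v 3) (.v 4))),
  (.m (.m (.m (.m (.v 0) (.v 2)) (.v 1)) (.v 1)) (.m (.v 3) (.v 4))),
  (.m (.m (.m (.m (.v 0) (.v 4)) (.v 4)) (.v 2)) (.m (.v 1) (.v 3))),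
  (.m (.m (.m (.m (.v 0) (.v 4)) (.v 2)) (.v 4)) (.m (.v 1) (.v 3))),
  (.m (.m (.m (.m (.v 0) (.v 2)) (.v 4)) (.v 4)) (.m (.v 1) (.v 3))),
  (.m (.m (.m (.m (.m (.v 0) (.v 1)) (.v 1)) (.v 2)) (.v 4)) (.v 3)),
  (.m (.m (.m (.m (.m (.v 0) (.v 1)) (.v 2)) (.v 1)) (.v 4)) (.v 3)),
  (.m (.m (.m (.m (.m (.v 0) (.v 2)) (.v 1)) (.v 1)) (.v 4)) (.v 3)),
  (.m (.m (.m (.m (.m (.v 0) (.v 4)) (.v 4)) (.v 2)) (.v 1)) (.v 3)),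
  (.m (.m (.m (.m (.m (.v 0) (.v 4)) (.v 2)) (.v 4)) (.v 1)) (.v 3)),
  (.m (.m (.m (.m (.m (.v 0) (.v 2)) (.v 4)) (.v 4)) (.v 1)) (.v 3))]

/-- `F((a b b),c,d)` -/
def d17 : List Ex := [(.m (.m (.m (.m (.m (.v 0) (.v 1)) (.v 1)) (.v 2)) (.v 2)) (.v 3)),
  (.m (.m (.m (.m (.m (.v 0) (.v 1)) (.v 1)) (.v 2)) (.v 3)) (.v 2)),
  (.m (.m (.m (.m (.m (.v 0) (.v 1)) (.v 1)) (.v 3)) (.v 2)) (.v 2))]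

/-- `F((a b c),d,e)+F((a c b),d,e)` -/
def d18 : List Ex := [(.m (.m (.m (.m (.m (.v 0) (.v 1)) (.v 2)) (.v 3)) (.v 3)) (.v 4)),
  (.m (.m (.m (.m (.m (.v 0) (.v 1)) (.v 2)) (.v 3)) (.v 4)) (.v 3)),
  (.m (.m (.m (.m (.m (.v 0) (.v 1)) (.v 2)) (.v 4)) (.v 3)) (.v 3)),
  (.m (.m (.m (.m (.m (.v 0) (.v 2)) (.v 1)) (.v 3)) (.v 3)) (.v 4)),
  (.m (.m (.m (.m (.m (.v 0) (.v 2)) (.v 1)) (.v 3)) (.v 4)) (.v 3)),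
  (.m (.m (.m (.m (.m (.v 0) (.v 2)) (.v 1)) (.v 4)) (.v 3)) (.v 3))]

/-- `F(F(a,b,c),d,e)` -/
def d19 : List Ex := [(.m (.m (.m (.m (.m (.m (.v 0) (.v 1)) (.v 1)) (.v 2)) (.v 3)) (.v 3)) (.v 4)),
  (.m (.m (.m (.m (.m (.m (.v 0) (.v 1)) (.v 2)) (.v 1)) (.v 3)) (.v 3)) (.v 4)),
  (.m (.m (.m (.m (.m (.m (.v 0) (.v 2)) (.v 1)) (.v 1)) (.v 3)) (.v 3)) (.v 4)),
  (.m (.m (.m (.m (.m (.m (.v 0) (.v 1)) (.v 1)) (.v 2)) (.v 3)) (.v 4)) (.v 3)),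
  (.m (.m (.m (.m (.m (.m (.v 0) (.v 1)) (.v 2)) (.v 1)) (.v 3)) (.v 4)) (.v 3)),
  (.m (.m (.m (.m (.m (.m (.v 0) (.v 2)) (.v 1)) (.v 1)) (.v 3)) (.v 4)) (.v 3)),
  (.m (.m (.m (.m (.m (.m (.v 0) (.v 1)) (.v 1)) (.v 2)) (.v 4)) (.v 3)) (.v 3)),
  (.m (.m (.m (.m (.m (.m (.v 0) (.v 1)) (.v 2)) (.v 1)) (.v 4)) (.v 3)) (.v 3)),
  (.m (.m (.m (.m (.m (.m (.v 0) (.v 2)) (.v 1)) (.v 1)) (.v 4)) (.v 3)) (.v 3))]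

/-- `(F(a,b,c) (d e e))` -/
def d20 : List Ex := [(.m (.m (.m (.m (.v 0) (.v 1)) (.v 1)) (.v 2)) (.m (.m (.v 3) (.v 4)) (.v 4))),
  (.m (.m (.m (.m (.v 0) (.v 1)) (.v 2)) (.v 1)) (.m (.m (.v 3) (.v 4)) (.v 4))),
  (.m (.m (.m (.m (.v 0) (.v 2)) (.v 1)) (.v 1)) (.m (.m (.v 3) (.v 4)) (.v 4)))]

/-- `(F(a,b,c) (d e f))+(F(a,b,c) (d f e))` -/
def d21 : List Ex := [(.m (.m (.m (.m (.v 0) (.v 1)) (.v 1)) (.v 2)) (.m (.m (.v 3) (.v 4)) (.v 5))),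
  (.m (.m (.m (.m (.v 0) (.v 1)) (.v 2)) (.v 1)) (.m (.m (.v 3) (.v 4)) (.v 5))),
  (.m (.m (.m (.m (.v 0) (.v 2)) (.v 1)) (.v 1)) (.m (.m (.v 3) (.v 4)) (.v 5))),
  (.m (.m (.m (.m (.v 0) (.v 1)) (.v 1)) (.v 2)) (.m (.m (.v 3) (.v 5)) (.v 4))),
  (.m (.m (.m (.m (.v 0) (.v 1)) (.v 2)) (.v 1)) (.m (.m (.v 3) (.v 5)) (.v 4))),
  (.m (.m (.m (.m (.v 0) (.v 2)) (.v 1)) (.v 1)) (.m (.m (.v 3) (.v 5)) (.v 4)))]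

/-- `(F(a,b,c) b d)+(F(d,b,c) b a)` -/
def d26 : List Ex := [(.m (.m (.m (.m (.m (.v 0) (.v 1)) (.v 1)) (.v 2)) (.v 1)) (.v 3)),
  (.m (.m (.m (.m (.m (.v 0) (.v 1)) (.v 2)) (.v 1)) (.v 1)) (.v 3)),
  (.m (.m (.m (.m (.m (.v 0) (.v 2)) (.v 1)) (.v 1)) (.v 1)) (.v 3)),
  (.m (.m (.m (.m (.m (.v 3) (.v 1)) (.v 1)) (.v 2)) (.v 1)) (.v 0)),
  (.m (.m (.m (.m (.m (.v 3) (.v 1)) (.v 2)) (.v 1)) (.v 1)) (.v 0)),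
  (.m (.m (.m (.m (.m (.v 3) (.v 2)) (.v 1)) (.v 1)) (.v 1)) (.v 0))]

/-- `(F(a,b,c) (d e a))` -/
def dK : List Ex := [(.m (.m (.m (.m (.v 0) (.v 1)) (.v 1)) (.v 2)) (.m (.m (.v 3) (.v 4)) (.v 0))),
  (.m (.m (.m (.m (.v 0) (.v 1)) (.v 2)) (.v 1)) (.m (.m (.v 3) (.v 4)) (.v 0))),
  (.m (.m (.m (.m (.v 0) (.v 2)) (.v 1)) (.v 1)) (.m (.m (.v 3) (.v 4)) (.v 0)))]

def stA : ℕ → List Ex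
  | 0 => d0
  | 1 => d1
  | _ => d2

def stB : ℕ → List Ex
  | 0 => d0
  | 1 => d1
  | 2 => d2
  | 3 => d3
  | _ => d4

def stC : ℕ → List Ex
  | 0 => d0
  | 1 => d1
  | 2 => d2
  | 3 => d3
  | 4 => d4
  | 5 => d5
  | _ => d6

def stD : ℕ → List Ex
  | 0 => d0
  | 1 => d1
  | 2 => d2
  | 3 => d3
  | 4 => d4
  | 5 => d5
  | 6 => d6
  | 7 => d7
  | 8 => d8
  | 9 => d9
  | _ => d10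

def stE : ℕ → List Ex
  | 0 => d0
  | 1 => d1
  | 2 => d2
  | 3 => d3
  | 4 => d4
  | 5 => d5
  | 6 => d6
  | 7 => d7
  | 8 => d8
  | 9 => d9
  | 10 => d10
  | 11 => d11
  | _ => d12

def stF : ℕ → List Ex
  | 0 => d0
  | 1 => d1
  | 2 => d2
  | 3 => d3
  | 4 => d4
  | 5 => d5
  | 6 => d6
  | 7 => d7
  | 8 => d8
  | 9 => d9
  | 10 => d10
  | 11 => d11
  | 12 => d12
  | 13 => d13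
  | _ => d14

def stG : ℕ → List Ex
  | 0 => d0
  | 1 => d1
  | 2 => d2
  | 3 => d3
  | 4 => d4
  | 5 => d5
  | 6 => d6
  | 7 => d7
  | 8 => d8
  | 9 => d9
  | 10 => d10
  | 11 => d11
  | 12 => d12
  | 13 => d13
  | 14 => d14
  | 15 => d15
  | _ => d16

def stH : ℕ → List Ex
  | 0 => d0
  | 1 => d1
  | 2 => d2
  | 3 => d3
  | 4 => d4
  | 5 => d5
  | 6 => d6
  | 7 => d7
  | 8 => d8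
  | 9 => d9
  | 10 => d10
  | 11 => d11
  | 12 => d12
  | 13 => d13
  | 14 => d14
  | 15 => d15
  | 16 => d16
  | 17 => d17
  | _ => d18

def stI : ℕ → List Ex
  | 0 => d0
  | 1 => d1
  | 2 => d2
  | 3 => d3
  | 4 => d4
  | 5 => d5
  | 6 => d6
  | 7 => d7
  | 8 => d8
  | 9 => d9
  | 10 => d10
  | 11 => d11
  | 12 => d12
  | 13 => d13
  | 14 => d14
  | 15 => d15
  | 16 => d16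
  | 17 => d17
  | 18 => d18
  | 20 => d20
  | 21 => d21
  | _ => d26

end Pool.Agent.H66.F2
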