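import Pool.Agent.H66.F2.Tid
import Pool.Agent.H66.Eng2.Rees

set_option autoImplicit false

/-!
# The field with two elements: reduction to the linearised identities (MP_1664c7_al)
-/

universe u v

namespace Pool.Agent.H66.F2

open Pool.Agent.H66.Eng Pool.Agent.H86.Eng2 Pool.Agent.H66.Eng2

section ext

variable {F : Type u} [Field F] {A : Type v} [NonUnitalNonAssocRing A] [Module F A]
  [IsScalarTower F A A] [SMulCommClass F A A]

/-- Relative extension lemma, for an ideal on which the relation holds. -/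
theorem ext_rel' (anti : ∀ x y : A, x * y = -(y * x)) {X : Set A} (hX : X.Finite)
    {I J : Submodule F A} (hI : SId I) (hJ : SId J) (hR : RelOn I.toAddSubgroup)
    (hIJ : ∀ x ∈ I, ∀ y ∈ I, x * y ∈ J) (hN : NilMod X I) : NilMod X J := by
  have anti' : ∀ x y : Quo J hJ, x * y = -(y * x) := by
    intro x y
    obtain ⟨x, rfl⟩ := qmk_surj hJ x
    obtain ⟨y, rfl⟩ := qmk_surj hJ y
    rw [← qmk_mul, ← qmk_mul, anti x y, map_neg]
  set I' : Submodule F (Quo J hJ) := I.map (qmk hJ) with hI'
  have hid : IsId I'.toAddSubgroup := by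
    intro x hx y
    obtain ⟨x, hx, rfl⟩ := hx
    obtain ⟨y, rfl⟩ := qmk_surj hJ y
    constructor
    · exact ⟨x * y, (hI x hx y).1, qmk_mul hJ x y⟩
    · exact ⟨y * x, (hI x hx y).2, qmk_mul hJ y x⟩
  have hRel : RelOn I'.toAddSubgroup := by
    intro z hz x y
    obtain ⟨z, hz, rfl⟩ := hz
    obtain ⟨x, rfl⟩ := qmk_surj hJ x
    obtain ⟨y, rfl⟩ := qmk_surj hJ y
    have h := hR z hz x y
    have h' := congrArg (qmk hJ) h
    simpa only [qmk_mul, map_sub, map_neg] using h'
  have hII : ∀ x ∈ I'.toAddSubgroup, ∀ y ∈ I'.toAddSubgroup, x * y = 0 := by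
    intro x hx y hy
    obtain ⟨x, hx, rfl⟩ := hx
    obtain ⟨y, hy, rfl⟩ := hy
    rw [← qmk_mul, qmk_eq_zero]
    exact hIJ x hx y hy
  obtain ⟨N, hN⟩ := hN
  obtain ⟨K, hK⟩ := extension anti' (hX.image (qmk hJ)) hid hRel hII
    ⟨N, by
      intro n hn w hw
      obtain ⟨w, hw', rfl⟩ := Mon.lift (qmk hJ) (qmk_mul hJ) hw
      exact ⟨w, hN n hn w hw', rfl⟩⟩
  refine ⟨K, ?_⟩
  intro n hn w hw
  rw [← qmk_eq_zero hJ]
  exact hK n hn _ (Mon.map (qmk hJ) (qmk_mul hJ) hw)

end ext

/-- Words in the letters `X` (weight one) and the weighted letters `C`; the first index counts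
the letters of `C`, the second is the weight. -/
inductive WW {A : Type*} [Mul A] (X : Set A) (C : Set (ℕ × A)) : ℕ → ℕ → A → Prop
  | x (a : A) (ha : a ∈ X) : WW X C 0 1 a
  | c (p : ℕ × A) (hp : p ∈ C) : WW X C 1 p.1 p.2
  | mul {k j k' j' : ℕ} {y z : A} : WW X C k j y → WW X C k' j' z →
      WW X C (k + k') (j + j') (y * z)

section ideal

variable (F : Type u) [Field F] {A : Type v} [NonUnitalNonAssocRing A] [Module F A]
  [IsScalarTower F A A] [SMulCommClass F A A]

variable (A) in
/-- The ideal generated by the values of `Fa`. -/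
def TT : Submodule F A := Submodule.span F {t : A | TG t}

omit [SMulCommClass F A A] in
theorem TT_ideal (hA : W3 A) : SId (TT F A) := by
  have h : ∀ x ∈ TT F A, ∀ y : A, x * y ∈ TT F A := by
    intro x hx y
    induction hx using Submodule.span_induction with
    | mem t ht => exact Submodule.subset_span (TG.mul y ht)
    | zero => rw [zero_mul]; exact Submodule.zero_mem _
    | add a b _ _ h1 h2 => rw [add_mul]; exact Submodule.add_mem _ h1 h2
    | smul r a _ h1 => rw [smul_mul_assoc]; exact Submodule.smul_mem _ r h1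
  intro x hx y
  exact ⟨h x hx y, by rw [hA.comm]; exact h x hx y⟩

omit [IsScalarTower F A A] [SMulCommClass F A A] in
theorem TT_Fa (hA : W3 A) (h01 : ∀ r : F, r = 0 ∨ r = 1) {t : A} (ht : t ∈ TT F A) (u v : A) :
    Fa t u v = 0 := by
  induction ht using Submodule.span_induction with
  | mem t ht => exact (TG_prop hA ht).2.2 u v
  | zero => exact Fa_zero1 u v
  | add a b _ _ h1 h2 => rw [Fa_add1, h1, h2, add_zero]
  | smul r a _ h1 =>
    rcases h01 r with rfl | rfl
    · rw [zero_smul, Fa_zero1]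
    · rw [one_smul, h1]

omit [IsScalarTower F A A] [SMulCommClass F A A] in
theorem relOn_TT (hA : W3 A) (h01 : ∀ r : F, r = 0 ∨ r = 1) {I : Submodule F A}
    (hI : I ≤ TT F A) : RelOn I.toAddSubgroup := by
  intro z hz x y
  have h : Fa x y z = 0 := by rw [Fa_s13 hA, TT_Fa F hA h01 (hI hz)]
  simp only [Fa] at h
  rw [hA.comm ((x * y) * y) z, hA.comm (x * y) z, hA.comm x z] at h
  linear_combination (norm := abel) h

theorem e2_TT (hA : W3 A) : E2 (Quo (TT F A) (TT_ideal F hA)) where
  two := by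
    intro x
    obtain ⟨x, rfl⟩ := qmk_surj _ x
    rw [← map_add, hA.two, map_zero]
  sq := by
    intro x
    obtain ⟨x, rfl⟩ := qmk_surj _ x
    rw [← qmk_mul, hA.sq, map_zero]
  eng := by
    intro x y
    obtain ⟨x, rfl⟩ := qmk_surj _ x
    obtain ⟨y, rfl⟩ := qmk_surj _ y
    rw [← qmk_mul, ← qmk_mul, ← qmk_mul, hA.eng, map_zero]
  lin := by
    intro x a w
    obtain ⟨x, rfl⟩ := qmk_surj _ x
    obtain ⟨a, rfl⟩ := qmk_surj _ a
    obtain ⟨w, rfl⟩ := qmk_surj _ w
    simp only [← qmk_mul, ← map_add]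
    rw [qmk_eq_zero]
    exact Submodule.subset_span (TG.gen x a w)

end ideal

section red

variable {F : Type u} [Field F] {A : Type v} [NonUnitalNonAssocRing A] [Module F A]
  [IsScalarTower F A A] [SMulCommClass F A A]

omit [SMulCommClass F A A] in
theorem WW.mem_TT (hA : W3 A) {X : Set A} {C : Set (ℕ × A)} (hC : ∀ p ∈ C, p.2 ∈ TT F A)
    {k j : ℕ} {w : A} (h : WW X C k j w) : 1 ≤ k → w ∈ TT F A := by
  induction h with
  | x a ha => intro h; omega
  | c p hp => intro _; exact hC p hp
  | mul _ _ h1 h2 =>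
    rename_i k j k' j' y z _ _
    intro h
    rcases Nat.eq_zero_or_pos k with h0 | h0
    · exact (TT_ideal F hA _ (h2 (by omega)) y).2
    · exact (TT_ideal F hA _ (h1 h0) z).1

omit [IsScalarTower F A A] [SMulCommClass F A A] in
theorem WW.mon {X : Set A} {C : Set (ℕ × A)} {k j : ℕ} {w : A} (h : WW X C k j w) :
    k = 0 → Mon X j w := by
  induction h with
  | x a ha => intro _; exact Mon.gen ha
  | c p hp => intro h; omega
  | mul _ _ h1 h2 => intro h; exact (h1 (by omega)).mul (h2 (by omega))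

omit [IsScalarTower F A A] [SMulCommClass F A A] in
theorem WW.of_mon {X : Set A} {C : Set (ℕ × A)} {j : ℕ} {w : A} (h : Mon X j w) :
    WW X C 0 j w := by
  induction h with
  | gen hx => exact WW.x _ hx
  | mul _ _ h1 h2 => simpa using h1.mul h2

/-- Words with at least `k` letters of `C` and weight less than `j`. -/
def Lw (F : Type u) [Field F] {A : Type v} [NonUnitalNonAssocRing A] [Module F A]
    (X : Set A) (C : Set (ℕ × A)) (k j : ℕ) : Submodule F A :=
  Submodule.span F {w | ∃ k' j', k ≤ k' ∧ j' < j ∧ WW X C k' j' w}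

/-- Words with exactly `k` letters of `C` and weight `j`. -/
def Ew (F : Type u) [Field F] {A : Type v} [NonUnitalNonAssocRing A] [Module F A]
    (X : Set A) (C : Set (ℕ × A)) (k j : ℕ) : Submodule F A :=
  Submodule.span F {w | WW X C k j w}

theorem ew_mul_lw {X : Set A} {C : Set (ℕ × A)} {k m k' m' : ℕ} {x y : A}
    (hx : x ∈ Ew F X C k m) (hy : y ∈ Lw F X C k' m') : x * y ∈ Lw F X C (k + k') (m + m') := by
  refine span_mul_mem ?_ x hx y hy
  rintro a ha b ⟨p, q, hp, hq, hb⟩
  exact Submodule.subset_span ⟨k + p, m + q, by omega, by omega, WW.mul ha hb⟩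

theorem lw_mul_ew {X : Set A} {C : Set (ℕ × A)} {k m k' m' : ℕ} {x y : A}
    (hx : x ∈ Lw F X C k m) (hy : y ∈ Ew F X C k' m') : x * y ∈ Lw F X C (k + k') (m + m') := by
  refine span_mul_mem ?_ x hx y hy
  rintro a ⟨p, q, hp, hq, ha⟩ b hb
  exact Submodule.subset_span ⟨p + k', q + m', by omega, by omega, WW.mul ha hb⟩

/-- Rees algebra argument: words with many letters of `C` have smaller weight. -/
theorem rees2 (hE : ∀ (G : Type v) [NonUnitalNonAssocRing G] [Module F G] [IsScalarTower F G G]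
      [SMulCommClass F G G], E2 G → ∀ X : Set G, X.Finite →
      ∃ K, ∀ n, K ≤ n → ∀ w, Mon X n w → w = 0)
    (hA : W3 A) {X : Set A} (hX : X.Finite) {C : Set (ℕ × A)} (hC : C.Finite)
    (hF : ∀ k1 j1 x k2 j2 y k3 j3 z, WW X C k1 j1 x → WW X C k2 j2 y → WW X C k3 j3 z →
      Fa x y z ∈ Lw F X C (k1 + 2 * k2 + k3) (j1 + 2 * j2 + j3)) :
    ∃ K, ∀ k j w, K ≤ k → WW X C k j w → w ∈ Lw F X C k j := by
  classical
  set Z : Set (PS (PS A)) := ((fun a => sing 0 (sing 1 a)) '' X) ∪
    ((fun p : ℕ × A => sing 1 (sing p.1 p.2)) '' C) with hZ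
  have hPm : ∀ i i' a j j' b, WW X C i i' a → WW X C j j' b → WW X C (i + j) (i' + j') (a * b) :=
    fun _ _ _ _ _ _ ha hb => WW.mul ha hb
  have hZP : Z ⊆ Hom2 (WW X C) := by
    rintro f (⟨a, ha, rfl⟩ | ⟨p, hp, rfl⟩)
    · exact ⟨0, 1, a, WW.x a ha, rfl⟩
    · exact ⟨1, p.1, p.2, WW.c p hp, rfl⟩
  have hle := adjoin_le_hom2 (F := F) hPm hZP
  set R := NonUnitalAlgebra.adjoin F Z with hRdef
  -- words lie in `R`, as monomials
  have hlift : ∀ k j w, WW X C k j w → ∃ n, ∃ f : R, k ≤ n ∧ Mon (gens F Z) n f ∧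
      (f : PS (PS A)) = sing k (sing j w) := by
    intro k j w hw
    induction hw with
    | x a ha =>
      have haZ : sing 0 (sing 1 a) ∈ Z := Or.inl ⟨a, ha, rfl⟩
      exact ⟨1, ⟨_, NonUnitalAlgebra.subset_adjoin F haZ⟩, by omega, Mon.gen haZ, rfl⟩
    | c p hp =>
      have haZ : sing 1 (sing p.1 p.2) ∈ Z := Or.inr ⟨p, hp, rfl⟩
      exact ⟨1, ⟨_, NonUnitalAlgebra.subset_adjoin F haZ⟩, by omega, Mon.gen haZ, rfl⟩
    | mul _ _ h1 h2 =>
      obtain ⟨n1, f, hn1, hf, hfe⟩ := h1
      obtain ⟨n2, g, hn2, hg, hge⟩ := h2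
      refine ⟨n1 + n2, f * g, by omega, hf.mul hg, ?_⟩
      change ((f : PS (PS A)) * (g : PS (PS A))) = _
      rw [hfe, hge, sing2_mul]
  have hcoef : ∀ f ∈ Submodule.span F (Hom2 (WW X C)), ∀ k m, f k m ∈ Ew F X C k m := by
    intro f hf k m
    induction hf using Submodule.span_induction with
    | mem f hf =>
      obtain ⟨i, j, w, hw, rfl⟩ := hf
      by_cases hk : k = i ∧ m = j
      · obtain ⟨rfl, rfl⟩ := hk
        rw [sing_same, sing_same]
        exact Submodule.subset_span hw
      · rw [sing2_ne _ hk]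
        exact Submodule.zero_mem _
    | zero => exact Submodule.zero_mem _
    | add f g _ _ h1 h2 => exact Submodule.add_mem _ h1 h2
    | smul r f _ h1 => exact Submodule.smul_mem _ r h1
  let I : Submodule F R :=
    { carrier := {f | ∀ k m, (f : PS (PS A)) k m ∈ Lw F X C k m}
      zero_mem' := fun k m => Submodule.zero_mem _
      add_mem' := fun {f g} hf hg k m => Submodule.add_mem _ (hf k m) (hg k m)
      smul_mem' := fun r f hf k m => Submodule.smul_mem _ r (hf k m) }
  have hImem : ∀ f : R, f ∈ I ↔ ∀ k m, (f : PS (PS A)) k m ∈ Lw F X C k m := fun f => Iff.rfl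
  have hI : SId I := by
    intro f hf g
    rw [hImem] at hf
    have hg : ∀ k m, (g : PS (PS A)) k m ∈ Ew F X C k m := hcoef g (hle g g.2)
    constructor
    · rw [hImem]
      intro k m
      change ((f : PS (PS A)) * (g : PS (PS A))) k m ∈ _
      rw [psps_mul]
      refine Submodule.sum_mem _ ?_
      rintro ⟨i, j⟩ hij
      refine Submodule.sum_mem _ ?_
      rintro ⟨i', j'⟩ hij'
      have e : i + j = k := by simpa using hij
      have e' : i' + j' = m := by simpa using hij'
      have := lw_mul_ew (hf i i') (hg j j')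
      rwa [e, e'] at this
    · rw [hImem]
      intro k m
      change ((g : PS (PS A)) * (f : PS (PS A))) k m ∈ _
      rw [psps_mul]
      refine Submodule.sum_mem _ ?_
      rintro ⟨i, j⟩ hij
      refine Submodule.sum_mem _ ?_
      rintro ⟨i', j'⟩ hij'
      have e : i + j = k := by simpa using hij
      have e' : i' + j' = m := by simpa using hij'
      have := ew_mul_lw (hg i i') (hf j j')
      rwa [e, e'] at this
  set q := qmk hI with hq
  -- the homogeneous elements of the quotient
  set S : Set (Quo I hI) := {y | ∃ (f : R) (k j : ℕ) (w : A), WW X C k j w ∧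
    (f : PS (PS A)) = sing k (sing j w) ∧ y = q f} with hS
  have hSspan : Submodule.span F S = ⊤ := by
    rw [eq_top_iff]
    intro y _
    obtain ⟨f, rfl⟩ := qmk_surj hI y
    have hf := hle f f.2
    have key : ∀ g ∈ Submodule.span F (Hom2 (WW X C)), ∃ hg : g ∈ R,
        q ⟨g, hg⟩ ∈ Submodule.span F S := by
      intro g hg
      induction hg using Submodule.span_induction with
      | mem g hg =>
        obtain ⟨k, j, w, hw, rfl⟩ := hg
        obtain ⟨n, f, _, _, hfe⟩ := hlift k j w hw
        refine ⟨by rw [← hfe]; exact f.2, ?_⟩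
        exact Submodule.subset_span ⟨_, k, j, w, hw, rfl, rfl⟩
      | zero =>
        refine ⟨R.zero_mem, ?_⟩
        have : (⟨0, R.zero_mem⟩ : R) = 0 := rfl
        rw [this, map_zero]
        exact Submodule.zero_mem _
      | add a b _ _ h1 h2 =>
        obtain ⟨ha, h1⟩ := h1
        obtain ⟨hb, h2⟩ := h2
        refine ⟨R.add_mem ha hb, ?_⟩
        have : (⟨a + b, R.add_mem ha hb⟩ : R) = ⟨a, ha⟩ + ⟨b, hb⟩ := rfl
        rw [this, map_add]
        exact Submodule.add_mem _ h1 h2
      | smul r a _ h1 =>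
        obtain ⟨ha, h1⟩ := h1
        refine ⟨R.smul_mem r ha, ?_⟩
        have : (⟨r • a, R.smul_mem r ha⟩ : R) = r • ⟨a, ha⟩ := rfl
        rw [this, map_smul]
        exact Submodule.smul_mem _ r h1
    obtain ⟨_, h⟩ := key f hf
    exact h
  have hzero : ∀ (f : R) (k j : ℕ) (w : A), (f : PS (PS A)) = sing k (sing j w) →
      w ∈ Lw F X C k j → q f = 0 := by
    intro f k j w hfe hw
    rw [hq, qmk_eq_zero, hImem]
    intro k' m'
    rw [hfe]
    by_cases hk : k' = k ∧ m' = j
    · obtain ⟨rfl, rfl⟩ := hk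
      rw [sing_same, sing_same]
      exact hw
    · rw [sing2_ne _ hk]
      exact Submodule.zero_mem _
  have hmulid : MulId S := by
    refine
      { two := ?_
        sq := ?_
        comm := ?_
        eng := ?_
        lin := ?_
        full := ?_ }
    · intro y
      obtain ⟨f, rfl⟩ := qmk_surj hI y
      rw [← map_add]
      have : f + f = 0 := Subtype.ext (funext fun k => funext fun m => hA.two _)
      rw [this, map_zero]
    · rintro _ ⟨f, k, j, w, hw, hfe, rfl⟩
      rw [hq, ← qmk_mul]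
      have : f * f = 0 := by
        apply Subtype.ext
        change (f : PS (PS A)) * (f : PS (PS A)) = 0
        rw [hfe, sing2_mul, hA.sq, sing2_zero]
      rw [this, map_zero]
    · rintro _ ⟨f, k, j, w, hw, hfe, rfl⟩ _ ⟨g, k', j', w', hw', hge, rfl⟩
      rw [hq, ← qmk_mul, ← qmk_mul, ← map_add]
      have : f * g + g * f = 0 := by
        apply Subtype.ext
        change (f : PS (PS A)) * (g : PS (PS A)) + (g : PS (PS A)) * (f : PS (PS A)) = 0
        rw [hfe, hge, sing2_mul, sing2_mul, add_comm k' k, add_comm j' j, ← sing2_add,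
          hA.comm w w', hA.two, sing2_zero]
      rw [this, map_zero]
    · rintro _ ⟨f, k, j, w, hw, hfe, rfl⟩ _ ⟨g, k', j', w', hw', hge, rfl⟩
      rw [hq, ← qmk_mul, ← qmk_mul, ← qmk_mul]
      have : ((f * g) * g) * g = 0 := by
        apply Subtype.ext
        change (((f : PS (PS A)) * (g : PS (PS A))) * (g : PS (PS A))) * (g : PS (PS A)) = 0
        rw [hfe, hge, sing2_mul, sing2_mul, sing2_mul, hA.eng, sing2_zero]
      rw [this, map_zero]
    · rintro _ ⟨f, k1, j1, x, hx, hfe, rfl⟩ _ ⟨g, k2, j2, y, hy, hge, rfl⟩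
        _ ⟨h, k3, j3, z, hz, hhe, rfl⟩
      rw [hq]
      simp only [← qmk_mul, ← map_add]
      refine hzero _ (k1 + 2 * k2 + k3) (j1 + 2 * j2 + j3) (Fa x y z) ?_
        (hF k1 j1 x k2 j2 y k3 j3 z hx hy hz)
      change (((f : PS (PS A)) * g) * g) * h + (((f : PS (PS A)) * g) * h) * g
        + (((f : PS (PS A)) * h) * g) * g = _
      rw [hfe, hge, hhe]
      simp only [sing2_mul]
      have e1 : k1 + k2 + k2 + k3 = k1 + 2 * k2 + k3 := by omega
      have e2 : k1 + k2 + k3 + k2 = k1 + 2 * k2 + k3 := by omega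
      have e3 : k1 + k3 + k2 + k2 = k1 + 2 * k2 + k3 := by omega
      have f1 : j1 + j2 + j2 + j3 = j1 + 2 * j2 + j3 := by omega
      have f2 : j1 + j2 + j3 + j2 = j1 + 2 * j2 + j3 := by omega
      have f3 : j1 + j3 + j2 + j2 = j1 + 2 * j2 + j3 := by omega
      rw [e1, e2, e3, f1, f2, f3, ← sing2_add, ← sing2_add]
      rfl
    · rintro _ ⟨f, i, i', x, hx, hfe, rfl⟩ _ ⟨g, j, j', y, hy, hge, rfl⟩
        _ ⟨h, k, k', z, hz, hhe, rfl⟩ _ ⟨h', l, l', z', hz', hhe', rfl⟩
      rw [hq]
      simp only [← qmk_mul, ← map_add]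
      have : ((f * g) * h) * h' + ((f * g) * h') * h + ((f * h) * g) * h' + ((f * h) * h') * g
          + ((f * h') * g) * h + ((f * h') * h) * g = 0 := by
        apply Subtype.ext
        change (((f : PS (PS A)) * g) * h) * h' + (((f : PS (PS A)) * g) * h') * h
          + (((f : PS (PS A)) * h) * g) * h' + (((f : PS (PS A)) * h) * h') * g
          + (((f : PS (PS A)) * h') * g) * h + (((f : PS (PS A)) * h') * h) * g = 0
        rw [hfe, hge, hhe, hhe']
        simp only [sing2_mul]
        have e1 : i + j + l + k = i + j + k + l := by omega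
        have e2 : i + k + j + l = i + j + k + l := by omega
        have e3 : i + k + l + j = i + j + k + l := by omega
        have e4 : i + l + j + k = i + j + k + l := by omega
        have e5 : i + l + k + j = i + j + k + l := by omega
        have f1 : i' + j' + l' + k' = i' + j' + k' + l' := by omega
        have f2 : i' + k' + j' + l' = i' + j' + k' + l' := by omega
        have f3 : i' + k' + l' + j' = i' + j' + k' + l' := by omega
        have f4 : i' + l' + j' + k' = i' + j' + k' + l' := by omega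
        have f5 : i' + l' + k' + j' = i' + j' + k' + l' := by omega
        rw [e1, e2, e3, e4, e5, f1, f2, f3, f4, f5, ← sing2_add, ← sing2_add, ← sing2_add,
          ← sing2_add, ← sing2_add, p111 hA, sing2_zero]
      rw [this, map_zero]
  have hG : E2 (Quo I hI) := by
    have m : ∀ x : Quo I hI, x ∈ Submodule.span F S := fun x => by rw [hSspan]; trivial
    exact
      { two := hmulid.two
        sq := fun x => hmulid.sq' (F := F) x (m x)
        eng := fun x y => hmulid.eng' (F := F) x (m x) y (m y)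
        lin := fun x a w => hmulid.lin' (F := F) x (m x) a (m a) w (m w) }
  have hZfin : Z.Finite := (hX.image _).union (hC.image _)
  obtain ⟨K, hK⟩ := hE (Quo I hI) hG (q '' (gens F Z)) ((gens_finite hZfin).image q)
  refine ⟨K, ?_⟩
  intro k j w hk hw
  obtain ⟨n, f, hkn, hf, hfe⟩ := hlift k j w hw
  have hz : q f = 0 := hK n (by omega) _ (Mon.map q (qmk_mul hI) hf)
  rw [hq, qmk_eq_zero, hImem] at hz
  have := hz k j
  rwa [hfe, sing_same, sing_same] at this

end red

section main

variable {F : Type u} [Field F] {A : Type v} [NonUnitalNonAssocRing A] [Module F A]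
  [IsScalarTower F A A] [SMulCommClass F A A]

/-- Nilpotency of finitely generated algebras over the field with two elements. -/
theorem w3_mon (h01 : ∀ r : F, r = 0 ∨ r = 1)
    (hE : ∀ (G : Type v) [NonUnitalNonAssocRing G] [Module F G] [IsScalarTower F G G]
      [SMulCommClass F G G], E2 G → ∀ X : Set G, X.Finite →
      ∃ K, ∀ n, K ≤ n → ∀ w, Mon X n w → w = 0)
    (hA : W3 A) {X : Set A} (hX : X.Finite) (hgen : mspan F X 1 = ⊤) :
    ∃ K, ∀ n, K ≤ n → ∀ w, Mon X n w → w = 0 := by
  classical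
  -- the quotient by the ideal `TT` is nilpotent
  have hNT : NilMod X (TT F A) := by
    obtain ⟨K, hK⟩ := hE _ (e2_TT F hA) (qmk (TT_ideal F hA) '' X) (hX.image _)
    refine ⟨K, ?_⟩
    intro n hn w hw
    rw [← qmk_eq_zero (TT_ideal F hA)]
    exact hK n hn _ (Mon.map _ (qmk_mul _) hw)
  obtain ⟨N0, hN0⟩ := hNT
  -- the letters
  set P : Set (ℕ × A) := {p | p.1 < N0 ∧ Mon X p.1 p.2} with hP
  have hPfin : P.Finite := Mon.finite_lt hX N0
  set C : Set (ℕ × A) := (fun t : (ℕ × A) × (ℕ × A) × (ℕ × A) =>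
    (t.1.1 + t.2.1.1 + t.2.2.1, Fa t.1.2 t.2.1.2 t.2.2.2)) '' (P ×ˢ (P ×ˢ P)) with hC
  have hCfin : C.Finite := (hPfin.prod (hPfin.prod hPfin)).image _
  have hCT : ∀ p ∈ C, p.2 ∈ TT F A := by
    rintro _ ⟨t, _, rfl⟩
    exact Submodule.subset_span (TG.gen _ _ _)
  have hFmon : ∀ n1 x n2 y n3 z, Mon X n1 x → Mon X n2 y → Mon X n3 z →
      Fa x y z = 0 ∨ WW X C 1 (n1 + n2 + n3) (Fa x y z) := by
    intro n1 x n2 y n3 z hx hy hz
    rcases Nat.lt_or_ge n1 N0 with h1 | h1
    · rcases Nat.lt_or_ge n2 N0 with h2 | h2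
      · rcases Nat.lt_or_ge n3 N0 with h3 | h3
        · right
          exact WW.c (n1 + n2 + n3, Fa x y z)
            ⟨((n1, x), (n2, y), (n3, z)), ⟨⟨h1, hx⟩, ⟨h2, hy⟩, ⟨h3, hz⟩⟩, rfl⟩
        · left
          rw [Fa_s13 hA, TT_Fa F hA h01 (hN0 n3 h3 z hz)]
      · left
        rw [Fa_s12 hA, TT_Fa F hA h01 (hN0 n2 h2 y hy)]
    · left
      exact TT_Fa F hA h01 (hN0 n1 h1 x hx) y z
  have hF : ∀ k1 j1 x k2 j2 y k3 j3 z, WW X C k1 j1 x → WW X C k2 j2 y → WW X C k3 j3 z →
      Fa x y z ∈ Lw F X C (k1 + 2 * k2 + k3) (j1 + 2 * j2 + j3) := by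
    intro k1 j1 x k2 j2 y k3 j3 z hx hy hz
    rcases Nat.eq_zero_or_pos k1 with h1 | h1
    · rcases Nat.eq_zero_or_pos k2 with h2 | h2
      · rcases Nat.eq_zero_or_pos k3 with h3 | h3
        · have hx' := hx.mon h1
          have hy' := hy.mon h2
          have hz' := hz.mon h3
          have hpos := hy'.pos
          rcases hFmon j1 x j2 y j3 z hx' hy' hz' with h | h
          · rw [h]; exact Submodule.zero_mem _
          · exact Submodule.subset_span ⟨1, j1 + j2 + j3, by omega, by omega, h⟩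
        · rw [Fa_s13 hA, TT_Fa F hA h01 (hz.mem_TT hA hCT h3)]
          exact Submodule.zero_mem _
      · rw [Fa_s12 hA, TT_Fa F hA h01 (hy.mem_TT hA hCT h2)]
        exact Submodule.zero_mem _
    · rw [TT_Fa F hA h01 (hx.mem_TT hA hCT h1)]
      exact Submodule.zero_mem _
  obtain ⟨K, hK⟩ := rees2 (F := F) hE hA hX hCfin hF
  -- words with many letters of `C` vanish
  have hmany : ∀ j k w, K ≤ k → WW X C k j w → w = 0 := by
    intro j
    induction j using Nat.strong_induction_on with
    | _ j ih =>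
      intro k w hk hw
      have h1 := hK k j w hk hw
      have h2 : Lw F X C k j ≤ ⊥ := by
        refine Submodule.span_le.mpr ?_
        rintro w' ⟨k', j', hk', hj', hw'⟩
        simpa using ih j' hj' k' w' (by omega) hw'
      simpa using h2 h1
  -- the filtration
  set Tk : ℕ → Submodule F A := fun k => Submodule.span F {w | ∃ k' j, k ≤ k' ∧ WW X C k' j w}
    with hTk
  have hall : ∀ y : A, y ∈ Submodule.span F {w : A | ∃ m, 1 ≤ m ∧ Mon X m w} := by
    intro y
    have h : y ∈ mspan F X 1 := by rw [hgen]; trivial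
    exact h
  have hTid : ∀ k, SId (Tk k) := by
    intro k x hx y
    constructor
    · refine span_mul_mem (P := Tk k) ?_ x hx y (hall y)
      rintro a ⟨k', j, hk, ha⟩ b ⟨m, _, hb⟩
      exact Submodule.subset_span ⟨k' + 0, j + m, by omega, ha.mul (WW.of_mon hb)⟩
    · refine span_mul_mem (P := Tk k) ?_ y (hall y) x hx
      rintro b ⟨m, _, hb⟩ a ⟨k', j, hk, ha⟩
      exact Submodule.subset_span ⟨0 + k', m + j, by omega, (WW.of_mon hb).mul ha⟩
  have hTT : ∀ k, 1 ≤ k → Tk k ≤ TT F A := by
    intro k hk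
    refine Submodule.span_le.mpr ?_
    rintro w ⟨k', j, hk', hw⟩
    exact hw.mem_TT hA hCT (by omega)
  have hTT1 : TT F A ≤ Tk 1 := by
    refine Submodule.span_le.mpr ?_
    intro t ht
    induction ht with
    | mul w _ ih => exact (hTid 1 _ ih w).1
    | gen x y z =>
      -- trilinearity
      have hz := hall z
      induction hz using Submodule.span_induction with
      | zero => rw [Fa_zero3]; exact Submodule.zero_mem _
      | add a b _ _ h1 h2 => rw [Fa_add3]; exact Submodule.add_mem _ h1 h2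
      | smul r a _ h1 =>
        rcases h01 r with rfl | rfl
        · rw [zero_smul, Fa_zero3]; exact Submodule.zero_mem _
        · rw [one_smul]; exact h1
      | mem z hz =>
        obtain ⟨n3, _, hz⟩ := hz
        have hy := hall y
        induction hy using Submodule.span_induction with
        | zero => rw [Fa_zero2]; exact Submodule.zero_mem _
        | add a b _ _ h1 h2 => rw [Fa_add2 hA]; exact Submodule.add_mem _ h1 h2
        | smul r a _ h1 =>
          rcases h01 r with rfl | rfl
          · rw [zero_smul, Fa_zero2]; exact Submodule.zero_mem _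
          · rw [one_smul]; exact h1
        | mem y hy =>
          obtain ⟨n2, _, hy⟩ := hy
          have hx := hall x
          induction hx using Submodule.span_induction with
          | zero => rw [Fa_zero1]; exact Submodule.zero_mem _
          | add a b _ _ h1 h2 => rw [Fa_add1]; exact Submodule.add_mem _ h1 h2
          | smul r a _ h1 =>
            rcases h01 r with rfl | rfl
            · rw [zero_smul, Fa_zero1]; exact Submodule.zero_mem _
            · rw [one_smul]; exact h1
          | mem x hx =>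
            obtain ⟨n1, _, hx⟩ := hx
            rcases hFmon n1 x n2 y n3 z hx hy hz with h | h
            · rw [h]; exact Submodule.zero_mem _
            · exact Submodule.subset_span ⟨1, n1 + n2 + n3, le_rfl, h⟩
  have anti : ∀ x y : A, x * y = -(y * x) := by
    intro x y
    rw [hA.neg, hA.comm]
  have hpow : ∀ m, NilMod X (Tk (2 ^ m)) := by
    intro m
    induction m with
    | zero =>
      refine ⟨N0, ?_⟩
      intro n hn w hw
      have := hTT1 (hN0 n hn w hw)
      simpa using this
    | succ m ih =>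
      refine ext_rel' anti hX (hTid _) (hTid _)
        (relOn_TT F hA h01 (hTT _ (Nat.one_le_two_pow))) ?_ ih
      intro x hx y hy
      refine span_mul_mem (P := Tk (2 ^ (m + 1))) ?_ x hx y hy
      rintro a ⟨k1, j1, hk1, ha⟩ b ⟨k2, j2, hk2, hb⟩
      have e : 2 ^ (m + 1) = 2 ^ m + 2 ^ m := by ring
      exact Submodule.subset_span ⟨k1 + k2, j1 + j2, by omega, ha.mul hb⟩
  obtain ⟨N, hN⟩ := hpow K
  refine ⟨N, ?_⟩
  intro n hn w hw
  have h1 := hN n hn w hw
  have h2 : Tk (2 ^ K) ≤ ⊥ := by
    refine Submodule.span_le.mpr ?_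
    rintro w' ⟨k', j, hk', hw'⟩
    have hlt : K < 2 ^ K := K.lt_two_pow_self
    simpa using hmany j k' w' (by omega) hw'
  simpa using h2 h1

/-- **Local nilpotency over the field with two elements**, from the linearised case. -/
theorem w3_nilpotent (h01 : ∀ r : F, r = 0 ∨ r = 1)
    (hE : ∀ (G : Type v) [NonUnitalNonAssocRing G] [Module F G] [IsScalarTower F G G]
      [SMulCommClass F G G], E2 G → ∀ X : Set G, X.Finite →
      ∃ K, ∀ n, K ≤ n → ∀ w, Mon X n w → w = 0)
    (hA : W3 A) (s : Finset A) :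
    IsNilpotentAlg (NonUnitalAlgebra.adjoin F (s : Set A)) := by
  apply nilpotent_of_mon
  set B := NonUnitalAlgebra.adjoin F (s : Set A) with hB
  have hB3 : W3 B :=
    { two := fun x => Subtype.ext (hA.two x)
      sq := fun x => Subtype.ext (hA.sq x)
      eng := fun x y => Subtype.ext (hA.eng x y) }
  obtain ⟨K, hK⟩ := w3_mon (F := F) (A := B) h01 hE hB3
    (gens_finite (F := F) s.finite_toSet) (gens_top (F := F) (s : Set A))
  refine ⟨K, ?_⟩
  intro n hn w hw
  have hlift : ∀ n w, Mon (s : Set A) n w → ∃ f : B, Mon (gens F (s : Set A)) n f ∧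
      (f : A) = w := by
    intro n w hw
    induction hw with
    | gen hx =>
      exact ⟨⟨_, NonUnitalAlgebra.subset_adjoin F hx⟩, Mon.gen hx, rfl⟩
    | mul _ _ h1 h2 =>
      obtain ⟨f, hf, rfl⟩ := h1
      obtain ⟨g, hg, rfl⟩ := h2
      exact ⟨f * g, hf.mul hg, rfl⟩
  obtain ⟨f, hf, rfl⟩ := hlift n w hw
  rw [hK n hn f hf]
  rfl

end main

end Pool.Agent.H66.F2
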