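import Pool.Agent.H66.F2.Idn

/-!
# The ideal generated by the values of the linearisation (MP_1664c7_al)
-/

set_option autoImplicit false

namespace Pool.Agent.H66.F2

variable {A : Type*} [NonUnitalNonAssocRing A]

/-- generators (as an additive group) of the ideal generated by the values of `Fa` -/
inductive TG {A : Type*} [NonUnitalNonAssocRing A] : A → Prop
  | gen (x y z : A) : TG (Fa x y z)
  | mul {t : A} (w : A) : TG t → TG (t * w)

/-- sums of products `(P Q) R` -/
def A3 (A : Type*) [NonUnitalNonAssocRing A] : AddSubgroup A :=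
  AddSubgroup.closure {a | ∃ P Q R : A, a = (P * Q) * R}

theorem A3_mul {t : A} (ht : t ∈ A3 A) (w : A) : t * w ∈ A3 A := by
  induction ht using AddSubgroup.closure_induction with
  | mem x hx =>
    obtain ⟨P, Q, R, rfl⟩ := hx
    exact AddSubgroup.subset_closure ⟨P * Q, R, w, rfl⟩
  | zero => rw [zero_mul]; exact AddSubgroup.zero_mem _
  | add x y _ _ h1 h2 => rw [add_mul]; exact AddSubgroup.add_mem _ h1 h2
  | neg x _ h1 => rw [neg_mul]; exact AddSubgroup.neg_mem _ h1

theorem A3_Fa (x y z : A) : Fa x y z ∈ A3 A := by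
  unfold Fa
  exact AddSubgroup.add_mem _ (AddSubgroup.add_mem _
    (AddSubgroup.subset_closure ⟨_, _, _, rfl⟩) (AddSubgroup.subset_closure ⟨_, _, _, rfl⟩))
    (AddSubgroup.subset_closure ⟨_, _, _, rfl⟩)

section

variable (hA : W3 A)
include hA

theorem q1 (x y z u v w : A) : Fa x y z * ((u * v) * w) = Fa w y z * ((u * v) * x) := by
  have h := K2 hA (x + w) y z u v
  have h1 := K2 hA x y z u v
  have h2 := K2 hA w y z u v
  apply hA.eq_of
  simp only [Fa_add1, add_mul, mul_add] at h
  linear_combination (norm := abel) h - h1 - h2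

theorem q2 (x y z u v w : A) : Fa x y z * ((u * v) * w) = Fa x y z * ((u * w) * v) :=
  hA.eq_of (P2p hA x y z u v w)

theorem q3 (x y z P Q R w : A) :
    Fa x y z * (((P * Q) * R) * w) = Fa (w * x) y z * ((P * Q) * R) := by
  rw [q2 hA x y z (P * Q) R w, q1 hA x y z (P * Q) w R, hA.comm (P * Q) w,
    q2 hA R y z w (P * Q) x, hA.comm (w * x) (P * Q), q1 hA R y z P Q (w * x)]

theorem q4 {t : A} (ht : t ∈ A3 A) (x y z w : A) :
    Fa x y z * (t * w) = Fa (w * x) y z * t := by
  induction ht using AddSubgroup.closure_induction with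
  | mem a ha =>
    obtain ⟨P, Q, R, rfl⟩ := ha
    exact q3 hA x y z P Q R w
  | zero => simp
  | add a b _ _ h1 h2 => rw [add_mul, mul_add, mul_add, h1, h2]
  | neg a _ h1 => rw [neg_mul, mul_neg, mul_neg, h1]

theorem C5 (x y z : A) : Fa (x * y) y z = Fa x y z * y := by
  have h1 := hA.eng x y
  have h2 := hA.eng (x * z) y
  simp only [Fa, add_mul, h1, h2, zero_mul, zero_add, add_zero]

theorem C5p (x y z u : A) :
    Fa (x * y) u z + Fa (x * u) y z = Fa x y z * u + Fa x u z * y := by
  have h := C5 hA x (y + u) z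
  have h1 := C5 hA x y z
  have h2 := C5 hA x u z
  simp only [mul_add, add_mul, Fa_add1, Fa_add2 hA] at h
  linear_combination (norm := abel) h - h1 - h2

/-- the three properties of elements of the ideal -/
theorem TG_prop {t : A} (ht : TG t) :
    t ∈ A3 A ∧ (∀ x y z, Fa x y z * t = 0) ∧ ∀ u v, Fa t u v = 0 := by
  induction ht with
  | gen p q r =>
    refine ⟨A3_Fa p q r, ?_, P1 hA p q r⟩
    intro x y z
    have e : Fa p q r = ((p * q) * q) * r + ((p * q) * r) * q + ((p * r) * q) * q := rfl
    rw [e, mul_add, mul_add, P2 hA, add_zero]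
    exact P2p hA x y z (p * q) q r
  | mul w _ ih =>
    rename_i t ht
    obtain ⟨h1, h2, h3⟩ := ih
    refine ⟨A3_mul h1 w, ?_, ?_⟩
    · intro x y z
      rw [q4 hA h1, h2]
    · intro u v
      have h := C5p hA w t v u
      rw [Fa_s12 hA (w * u) t v, h3, Fa_s12 hA w t v, h3, zero_mul, zero_add, add_zero,
        h2, hA.comm w t] at h
      exact h

end

end Pool.Agent.H66.F2
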